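import Pool.Agent.Lib.MP_688fd0_co.SQ4.H59.Front

/-!
Type C1: one frontier, all its sheets are reached by paths of length at most four from `x` (proof of helper59).
-/

set_option autoImplicit false

namespace Pool.Agent.Lib.MP_688fd0_co.SQ4.H59

open Pool.Agent.Lib.MP_688fd0_co.OSF Pool.Agent.Lib.MP_688fd0_co.SQ2 Pool.Agent.Lib.MP_688fd0_co.SQ3

variable {Q : Type} [Group Q] {B : Lb.{0, 0} Q} {a b : B.L} {eps : Q →* ℤˣ} {D : Subgroup Q} {z : Q} {k : ℕ}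

/-- One frontier. -/
theorem one_front0 (H : HypC B a b eps D z k) (c W : ℕ) (hsep : SepU H.up D c W) (hW : 2 * c ≤ W) (x : Q) :
    ∃ F : Finset Q, FrC H.up D k c W x F ∧ ∀ s ∈ F, ∃ l : List B.L, l.length ≤ 4 ∧ (B.fin x l)⁻¹ * s ∈ D := by
  classical
  have hfin : Finite Q := H.fin
  have hfL : Finite B.L := H.finL
  obtain ⟨S, hS, hc⟩ := SQ2.H35.exists_words (B := B) 4
  obtain ⟨R, hRM, hR0, hRc, hRd⟩ := SQ3.H94.reps (fun (j : ℤ) (x y : Q) => ((H.up.U ^ j) x)⁻¹ * y ∈ D)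
    (fun x => by simp) (fun j x y h => by
      have h1 := sheet H (-j) h
      have h2 := D.inv_mem h1
      rw [mul_inv_rev, inv_inv, ← U_zpow_add, add_neg_cancel, zpow_zero] at h2
      exact h2)
    (fun i j x y z h h' => by
      have h1 := sheet H j h
      have h2 := D.mul_mem h1 h'
      rw [← U_zpow_add, mul_assoc, mul_inv_cancel_left] at h2
      exact h2)
    (S.image (fun l => B.fin x l)) x (Finset.mem_image.2 ⟨[], (hS _).2 (by simp), rfl⟩) c W hW (by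
      intro w hw w' hw' j hj1 hj2 h
      obtain ⟨l, hl, rfl⟩ := Finset.mem_image.1 hw
      obtain ⟨l', hl', rfl⟩ := Finset.mem_image.1 hw'
      refine hsep (B.fin x l) (B.rev l ++ l') j ?_ hj1 hj2 ?_
      · have := (hS _).1 hl
        have := (hS _).1 hl'
        rw [List.length_append, SQ2.H35.length_rev]; omega
      · have h1 : ((H.up.U ^ j) (B.fin x l))⁻¹ * B.fin x l' ∈ D := h
        rwa [SQ2.fin_append, SQ2.fin_rev])
  let F : Finset Q := (Set.toFinite {y : Q | ∃ x ∈ R, x⁻¹ * y ∈ D}).toFinset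
  have hF : ∀ y, y ∈ F ↔ ∃ x ∈ R, x⁻¹ * y ∈ D := fun y => Set.Finite.mem_toFinset _
  have hfs0 : ∀ s ∈ F, ∃ l : List B.L, l.length ≤ 4 ∧ (B.fin x l)⁻¹ * s ∈ D := by
    intro s hs
    obtain ⟨y, hy, h⟩ := (hF s).1 hs
    obtain ⟨l, hl, rfl⟩ := Finset.mem_image.1 (hRM hy)
    exact ⟨l, (hS _).1 hl, h⟩
  refine ⟨F, ⟨?_, ?_, (hF _).2 ⟨x, hR0, by simp⟩, ?_, ?_, ?_⟩, hfs0⟩
  · intro s hs δ hδ
    obtain ⟨y, hy, h⟩ := (hF s).1 hs
    exact (hF _).2 ⟨y, hy, by rw [← mul_assoc]; exact D.mul_mem h hδ⟩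
  · intro s hs t ht h
    obtain ⟨y, hy, h1⟩ := (hF s).1 hs
    obtain ⟨y', hy', h2⟩ := (hF _).1 h
    refine hRd y hy y' hy' t ht ?_
    have h3 := sheet H t h1
    have h4 := D.mul_mem h3 (D.inv_mem h2)
    rw [mul_inv_rev, inv_inv, mul_assoc, mul_inv_cancel_left] at h4
    exact h4
  · intro l hl
    obtain ⟨y, hy, j, hj, h⟩ := hRc _ (Finset.mem_image.2 ⟨l, (hS _).2 hl, rfl⟩)
    refine ⟨j, hj, (hF _).2 ⟨y, hy, ?_⟩⟩
    have := D.inv_mem h
    rwa [mul_inv_rev, inv_inv] at this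
  · intro s hs
    obtain ⟨y, hy, h⟩ := (hF s).1 hs
    obtain ⟨l, hl, rfl⟩ := Finset.mem_image.1 (hRM hy)
    exact ⟨l, (hS _).1 hl, 0, by rw [zpow_zero]; exact h⟩
  · refine (SQ2.H35.card_cosets D F R (fun s hs => (hF s).1 hs)).trans ?_
    refine Nat.mul_le_mul ?_ (Nat.le_of_dvd H.kpos H.card)
    exact (Finset.card_le_card hRM).trans (Finset.card_image_le.trans hc)

end Pool.Agent.Lib.MP_688fd0_co.SQ4.H59
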