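import Pool.Agent.Lib.MP_688fd0_co.SQ4.IfaceV
import Pool.Agent.Lib.MP_688fd0_co.SQ4.Small.Geo
import Pool.Agent.Lib.MP_688fd0_co.SQ4.H26.Near
import Pool.Agent.Lib.MP_688fd0_co.SQ4.H41.Front0
import Pool.Agent.Lib.MP_688fd0_co.SQ4.H58.Tree

/-!
Type C1, WORLD, row CTX: the paths of length two in the graph of the lines, their strands and frontiers.

Edges: inner rungs (`SI`) and cross rungs of effective reflections. The graph of the lines is connected since `ker eps` is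
generated by `w`, the elements of `SI` and the `σ s`, `s` effective.
-/

set_option autoImplicit false

namespace Pool.Agent.Lib.MP_688fd0_co.SQ4.CV

open Pool.Agent.Lib.MP_688fd0_co.OSF Pool.Agent.Lib.MP_688fd0_co.SQ2 Pool.Agent.Lib.MP_688fd0_co.SQ3
open Pool.Agent.Lib.MP_688fd0_co.SQ4
open Pool.Agent.Lib.MP_688fd0_co.SQ4.Small (Ln ln_iff ln_ker ln_symm Up_sheet Uz_sheet U_lmz eps_Up)

section

variable {Q : Type} [Group Q] {B : Lb.{0, 0} Q} {a b : B.L} {eps : Q →* ℤˣ} {D : Subgroup Q} {z : Q} {k : ℕ}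

/-- An edge between the strand `x` (`eps x = 1`) and the strand `s`. -/
def Edg (_H : HypC B a b eps D z k) (N : ℕ) (x s : Q) : Prop :=
  (∃ q ∈ SI B a b eps D z k, s = x * q) ∨
    ∃ (t : B.L) (n i : ℤ), EffL B a b eps D z k t ∧ |n| ≤ N ∧
      (rfC eps (B.q a) s * wC B a b ^ n = x * (wC B a b ^ i * sg B a t * wC B a b ^ (-i)) ∨
        x * wC B a b ^ n = rfC eps (B.q a) s * (wC B a b ^ i * sg B a t * wC B a b ^ (-i)))

/-- The paths of the tree. -/
structure CtxC (H : HypC B a b eps D z k) (c W : ℕ) (d cl : Q → Bool) {N : ℕ} (x s₁ s₂ : Fin N → Q)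
    (F : Fin N → Finset Q) (rk : Fin N → ℕ) : Prop where
  pos : 0 < N
  d_line : ∀ y, d (H.up.U y) = d y
  c_line : ∀ y, cl (H.up.U y) = cl y
  d₁ : ∀ i, d (s₁ i) = !d (x i)
  d₂ : ∀ i, d (s₂ i) = !d (x i)
  tree : TreeK (lnU H.up) cl x s₁ s₂ rk
  ex : ∀ i, eps (x i) = 1
  cx : ∀ i, cl (x i) = false
  fr : ∀ i, FrC H.up D k c W (x i) (F i)
  fs0 : ∀ i, ∀ s ∈ F i, ∃ l : List B.L, l.length ≤ 4 ∧ (B.fin (x i) l)⁻¹ * s ∈ D
  f₁ : ∀ i, s₁ i ∈ F i
  f₂ : ∀ i, s₂ i ∈ F i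
  e₁ : ∀ i, Edg H c (x i) (s₁ i)
  e₂ : ∀ i, Edg H c (x i) (s₂ i)
  /-- the class `true` has at most one line -/
  one : ∀ y y', cl y = true → cl y' = true → lnU H.up y = lnU H.up y'
  odd : Odd (Nat.card {L : Quotient (Equiv.Perm.SameCycle.setoid H.up.U) // ∃ y, lnU H.up y = L ∧ cl y = false})
  cov : ∀ y, cl y = false → ∃ i, lnU H.up y = lnU H.up (x i) ∨ lnU H.up y = lnU H.up (s₁ i) ∨
    lnU H.up y = lnU H.up (s₂ i)
  near : ∀ i, ∃ S : Finset (Fin N), S.card ≤ (Nat.card B.L + 2) ^ 20 * k ^ 8 ∧ ∀ i', i' ∉ S → ∀ y ∈ F i,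
    ∀ y' ∈ F i', ∀ l l' : ℤ, (H.up.U ^ l) y ≠ (H.up.U ^ l') y'

end

/-- CTX. -/
def CtxCS : Prop :=
  ∀ (Q : Type) [Group Q] [Finite Q] (B : Lb.{0, 0} Q) (a b : B.L) (eps : Q →* ℤˣ) (D : Subgroup Q) (z : Q) (k : ℕ)
    (H : HypC B a b eps D z k), 3 ≤ (Subgroup.zpowers (B.q a * (B.q b)⁻¹)).relIndex eps.ker →
    ∀ c W : ℕ, SepU H.up D c W → 4 * c ≤ W →
      ∃ (d cl : Q → Bool) (N : ℕ) (x s₁ s₂ : Fin N → Q) (F : Fin N → Finset Q) (rk : Fin N → ℕ),
        CtxC H c W d cl x s₁ s₂ F rk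

namespace Ct

section

variable {Q : Type} [Group Q] {B : Lb.{0, 0} Q} {a b : B.L} {eps : Q →* ℤˣ} {D : Subgroup Q} {z : Q} {k : ℕ}

/-- The steps between the lines. -/
def Gn (B : Lb.{0, 0} Q) (a b : B.L) (eps : Q →* ℤˣ) (D : Subgroup Q) (z : Q) (k : ℕ) : Set Q :=
  {h | h ∈ SI B a b eps D z k ∨ ∃ (t : B.L) (i : ℤ), EffL B a b eps D z k t ∧
    (h = wC B a b ^ i * sg B a t * wC B a b ^ (-i) ∨ h = (wC B a b ^ i * sg B a t * wC B a b ^ (-i))⁻¹)}

variable (H : HypC B a b eps D z k)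

include H

theorem eps_w : eps (wC B a b) = 1 := H31.C_eps_w H

theorem eps_sg {t : B.L} (ht : eps (B.q t) = -1) : eps (sg B a t) = 1 := by
  unfold sg
  rw [map_mul, map_inv, ht, H.ea]
  decide

theorem SI_mem {q : Q} (h : q ∈ SI B a b eps D z k) : q ∈ D := by
  obtain ⟨m, -, n, t, ht, rfl⟩ := h
  exact H.nD.conj_mem _ (H.near t ht) _

omit H in
theorem SI_inv {q : Q} (h : q ∈ SI B a b eps D z k) : q⁻¹ ∈ SI B a b eps D z k := by
  obtain ⟨m, hm, n, t, ht, rfl⟩ := h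
  refine ⟨m, hm, n, B.inv t, by rw [B.q_inv, map_inv, ht, inv_one], ?_⟩
  rw [B.q_inv]
  group

theorem eps_Gn {h : Q} (hh : h ∈ Gn B a b eps D z k) : eps h = 1 := by
  rcases hh with hh | ⟨t, i, ht, hh | hh⟩
  · exact H.leD (SI_mem H hh)
  · rw [hh, map_mul, map_mul, eps_sg H ht.1, map_zpow, map_zpow, eps_w H, one_zpow, one_zpow]; rfl
  · rw [hh, map_inv, map_mul, map_mul, eps_sg H ht.1, map_zpow, map_zpow, eps_w H, one_zpow, one_zpow]; rfl

omit H in
theorem Gn_inv {h : Q} (hh : h ∈ Gn B a b eps D z k) : h⁻¹ ∈ Gn B a b eps D z k := by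
  rcases hh with hh | ⟨t, i, ht, hh | hh⟩
  · exact Or.inl (SI_inv hh)
  · exact Or.inr ⟨t, i, ht, Or.inr (by rw [hh])⟩
  · exact Or.inr ⟨t, i, ht, Or.inl (by rw [hh, inv_inv])⟩

/-- `mZ` is normalised by `w`. -/
theorem mZ_conj {m : Q} (hm : m ∈ mZ B a b D z k) (j : ℤ) :
    wC B a b ^ j * m * wC B a b ^ (-j) ∈ mZ B a b D z k := by
  have hδ : (z⁻¹ * wC B a b, Multiplicative.ofAdd (1 : ZMod k)) ∈ tC B a b D z k := by
    refine Subgroup.subset_closure ⟨a, b, ?_, ?_, rfl⟩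
    · rw [inv_mul_cancel]; exact D.one_mem
    · rw [inv_mul_cancel]; exact D.one_mem
  have hme : eps m = 1 := by
    have h1 : m ∈ mW B a b D z k := mem_mW.2 ⟨_, mem_mZ.1 hm⟩
    have h2 : mW B a b D z k ≤ eps.ker := by
      rw [mW_eq, Subgroup.closure_le]
      rintro _ ⟨c, d, h3, h4, rfl⟩
      have h5 : eps (B.q c) = -1 := by
        have h6 : eps ((B.q a)⁻¹ * B.q c) = 1 := H.leD h3
        rw [map_mul, map_inv, H.ea] at h6
        rcases Int.units_eq_one_or (eps (B.q c)) with h7 | h7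
        · rw [h7] at h6; exact absurd h6 (by decide)
        · exact h7
      have h5' : eps (B.q d) = -1 := by
        have h6 : eps ((B.q b)⁻¹ * B.q d) = 1 := H.leD h4
        rw [map_mul, map_inv, H.eb] at h6
        rcases Int.units_eq_one_or (eps (B.q d)) with h7 | h7
        · rw [h7] at h6; exact absurd h6 (by decide)
        · exact h7
      show eps _ = 1
      rw [map_mul, map_mul, map_inv, map_inv, h5, h5', H31.C_eps_z H]
      decide
    exact h2 h1
  have hj := (tC B a b D z k).zpow_mem hδ j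
  have h1 := (tC B a b D z k).mul_mem ((tC B a b D z k).mul_mem hj (mem_mZ.1 hm)) ((tC B a b D z k).inv_mem hj)
  rw [mem_mZ]
  have h2 : (z⁻¹ * wC B a b, Multiplicative.ofAdd (1 : ZMod k)) ^ j * (m, 1) *
      ((z⁻¹ * wC B a b, Multiplicative.ofAdd (1 : ZMod k)) ^ j)⁻¹ =
      (wC B a b ^ j * m * wC B a b ^ (-j), 1) := by
    refine Prod.ext ?_ ?_
    · show (z⁻¹ * wC B a b) ^ j * m * ((z⁻¹ * wC B a b) ^ j)⁻¹ = _
      have hz : Commute z⁻¹ (wC B a b) := by
        apply Commute.inv_left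
        exact (H.cen _ (eps_w H)).symm
      have hzm : m * z⁻¹ ^ j = z⁻¹ ^ j * m := by
        have : Commute m z := H.cen m hme
        exact (this.inv_right.zpow_right j).eq
      rw [hz.mul_zpow, mul_inv_rev, zpow_neg]
      calc z⁻¹ ^ j * wC B a b ^ j * m * ((wC B a b ^ j)⁻¹ * (z⁻¹ ^ j)⁻¹)
          = z⁻¹ ^ j * (wC B a b ^ j * m * (wC B a b ^ j)⁻¹) * (z⁻¹ ^ j)⁻¹ := by group
        _ = _ := by
          have hc : Commute (wC B a b ^ j * m * (wC B a b ^ j)⁻¹) z := H.cen _ (by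
            rw [map_mul, map_mul, map_inv, map_zpow, eps_w H, hme, one_zpow]; rfl)
          rw [← (hc.inv_right.zpow_right j).eq, mul_inv_cancel_right]
    · show (Multiplicative.ofAdd (1 : ZMod k)) ^ j * 1 * ((Multiplicative.ofAdd (1 : ZMod k)) ^ j)⁻¹ = 1
      rw [mul_one, mul_inv_cancel]
  rw [← h2]
  exact h1

/-- `SI` is normalised by `w`. -/
theorem SI_conj {q : Q} (h : q ∈ SI B a b eps D z k) (j : ℤ) :
    wC B a b ^ j * q * wC B a b ^ (-j) ∈ SI B a b eps D z k := by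
  have := H.fin
  obtain ⟨m, hm, n, t, ht, rfl⟩ := h
  obtain ⟨i, hi⟩ : ∃ i : ℕ, wC B a b ^ i = wC B a b ^ j := by
    have h1 : wC B a b ^ j ∈ Subgroup.zpowers (wC B a b) := ⟨j, rfl⟩
    rw [← (isOfFinOrder_of_finite (wC B a b)).mem_powers_iff_mem_zpowers] at h1
    exact h1
  refine ⟨wC B a b ^ j * m * wC B a b ^ (-j), mZ_conj H hm j, 2 * i + n, t, ht, ?_⟩
  have h2 : ∀ n, uC (B.q a) (B.q b) (2 * i + n) = wC B a b ^ j * uC (B.q a) (B.q b) n := by
    intro n
    induction n with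
    | zero =>
      rw [add_zero, uC_even, ← hi]
      show _ = _ * 1
      rw [mul_one]
      rfl
    | succ n ih =>
      show uC (B.q a) (B.q b) (2 * i + n) * (if (2 * i + n) % 2 = 0 then B.q a else (B.q b)⁻¹) =
        _ * (uC (B.q a) (B.q b) n * (if n % 2 = 0 then B.q a else (B.q b)⁻¹))
      rw [ih, mul_assoc, show (2 * i + n) % 2 = n % 2 by omega]
  rw [h2]
  group

theorem Gn_conj {h : Q} (hh : h ∈ Gn B a b eps D z k) (j : ℤ) :
    wC B a b ^ j * h * wC B a b ^ (-j) ∈ Gn B a b eps D z k := by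
  rcases hh with hh | ⟨t, i, ht, hh | hh⟩
  · exact Or.inl (SI_conj H hh j)
  · refine Or.inr ⟨t, j + i, ht, Or.inl ?_⟩
    rw [hh]; group
  · refine Or.inr ⟨t, j + i, ht, Or.inr ?_⟩
    rw [hh]; group

/-- Commutators of `w` are in `D`. -/
theorem comm_mem {g : Q} (hg : eps g = 1) (i : ℤ) : g⁻¹ * (wC B a b ^ i * g * wC B a b ^ (-i)) ∈ D := by
  have := H.nD
  have hw : (QuotientGroup.mk' D (wC B a b)) = QuotientGroup.mk' D z := by
    symm
    rw [QuotientGroup.mk'_apply, QuotientGroup.mk'_apply, QuotientGroup.eq]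
    exact H.mem
  have h1 : Commute (QuotientGroup.mk' D g) (QuotientGroup.mk' D z) := by
    have h2 := congrArg (QuotientGroup.mk' D) (H.cen g hg)
    rwa [map_mul, map_mul] at h2
  have h3 : QuotientGroup.mk' D (g⁻¹ * (wC B a b ^ i * g * wC B a b ^ (-i))) = 1 := by
    rw [map_mul, map_mul, map_mul, map_inv, map_zpow, map_zpow, hw, zpow_neg, ← (h1.zpow_right i).eq]
    group
  exact (QuotientGroup.eq_one_iff _).1 h3

theorem lnU_iff {x y : Q} : lnU H.up x = lnU H.up y ↔ Ln H.up x y := by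
  constructor
  · intro h
    obtain ⟨i, hi⟩ : Equiv.Perm.SameCycle H.up.U x y := Quotient.exact h
    rcases Int.eq_nat_or_neg i with ⟨n, rfl | rfl⟩
    · exact ⟨n, by rw [← hi, zpow_natCast]⟩
    · refine ln_symm H ⟨n, ?_⟩
      rw [← hi, zpow_neg, zpow_natCast]
      exact ((H.up.U ^ n).apply_symm_apply x).symm
  · rintro ⟨t, rfl⟩
    exact Quotient.sound (show Equiv.Perm.SameCycle H.up.U x ((H.up.U ^ t) x) from ⟨t, by rw [zpow_natCast]⟩)

omit H in
theorem lnU_z (U : Up B) (x : Q) (o : ℤ) : lnU U ((U.U ^ o) x) = lnU U x :=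
  Quotient.sound (show Equiv.Perm.SameCycle U.U ((U.U ^ o) x) x from ⟨-o, by
    rw [zpow_neg]; exact (U.U ^ o).symm_apply_apply x⟩)

theorem lnU_iff' {x y : Q} (hx : eps x = 1) (hy : eps y = 1) :
    lnU H.up x = lnU H.up y ↔ ∃ j : ℤ, y = x * wC B a b ^ j := by
  rw [lnU_iff H, ln_iff H hx hy]
  constructor
  · rintro ⟨j, hj⟩
    refine ⟨j, ?_⟩
    have hj' : (wC B a b) ^ j = x⁻¹ * y := hj
    rw [hj', mul_inv_cancel_left]
  · rintro ⟨j, rfl⟩
    exact ⟨j, by rw [inv_mul_cancel_left]; rfl⟩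

theorem lnU_ker (L : Quotient (Equiv.Perm.SameCycle.setoid H.up.U)) : ∃ y, eps y = 1 ∧ lnU H.up y = L := by
  obtain ⟨x, rfl⟩ := Quotient.exists_rep L
  obtain ⟨y, hy, h⟩ := ln_ker H x
  exact ⟨y, hy, ((lnU_iff H).2 h).symm⟩

/-- The integral powers of `U`. -/
theorem U_even {y : Q} (hy : eps y = 1) (m : ℤ) : (H.up.U ^ (2 * m)) y = y * wC B a b ^ m := by
  rcases Int.eq_nat_or_neg m with ⟨n, rfl | rfl⟩
  · have h := H31.C_U_pow H hy n
    have e : ((2 * (n : ℤ)) : ℤ) = ((2 * n : ℕ) : ℤ) := by push_cast; ring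
    rw [e, zpow_natCast, zpow_natCast]
    exact h
  · have e : (2 * (-(n : ℤ)) : ℤ) = -((2 * n : ℕ) : ℤ) := by push_cast; ring
    rw [e, zpow_neg, zpow_natCast]
    apply (H.up.U ^ (2 * n)).injective
    have h1 : eps (y * wC B a b ^ (-(n : ℤ))) = 1 := by rw [map_mul, map_zpow, eps_w H, one_zpow, hy, one_mul]
    rw [H31.C_U_pow H h1, Small.ai]
    show y = y * wC B a b ^ (-(n : ℤ)) * (wC B a b) ^ n
    rw [zpow_neg, zpow_natCast, inv_mul_cancel_right]

theorem rf_U {y : Q} (hy : eps y = 1) (o : ℤ) :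
    ∃ m : ℤ, |m| ≤ |o| ∧ rfC eps (B.q a) ((H.up.U ^ o) y) = y * wC B a b ^ m := by
  rcases Int.even_or_odd' o with ⟨m, rfl | rfl⟩
  · refine ⟨m, by rw [abs_mul]; have := abs_nonneg m; norm_num; linarith, ?_⟩
    rw [U_even H hy]
    unfold rfC
    rw [if_pos]
    rw [map_mul, map_zpow, eps_w H, one_zpow, hy, one_mul]
  · refine ⟨m, ?_, ?_⟩
    · rcases abs_cases m with h | h <;> rcases abs_cases (2 * m + 1) with h' | h' <;> omega
    · have h1 : eps (y * wC B a b ^ m) = 1 := by rw [map_mul, map_zpow, eps_w H, one_zpow, hy, one_mul]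
      have h2 : (H.up.U ^ (2 * m + 1)) y = y * wC B a b ^ m * B.q a := by
        rw [add_comm, zpow_add, Equiv.Perm.mul_apply, U_even H hy, zpow_one, H31.C_U_one H h1]
      rw [h2]
      unfold rfC
      rw [if_neg, mul_inv_cancel_right]
      rw [map_mul, h1, H.ea]
      decide

variable {c W : ℕ} {x : Q} {F : Finset Q}

/-- Every sheet at distance at most four meets the frontier. -/
theorem shF (hF : FrC H.up D k c W x F) {l : List B.L} (hl : l.length ≤ 4) {y : Q} (hy : (B.fin x l)⁻¹ * y ∈ D) :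
    ∃ o : ℤ, |o| ≤ c ∧ (H.up.U ^ o) y ∈ F := by
  obtain ⟨o, ho, h⟩ := hF.fsh l hl
  refine ⟨o, ho, ?_⟩
  have h1 := (Uz_sheet H o).2 hy
  have h2 := hF.inv _ h _ h1
  rwa [mul_inv_cancel_left] at h2

/-- The leaf of a step. -/
theorem leaf (hx : eps x = 1) (hF : FrC H.up D k c W x F) {h : Q} (hh : h ∈ Gn B a b eps D z k) :
    ∃ s ∈ F, lnU H.up s = lnU H.up (x * h) ∧ Edg H c x s := by
  have he := eps_Gn H hh
  have hxh : eps (x * h) = 1 := by rw [map_mul, hx, he, one_mul]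
  rcases hh with hh | ⟨t, i, ht, hh⟩
  · exact ⟨x * h, hF.inv _ hF.fx _ (SI_mem H hh), rfl, Or.inl ⟨h, hh, rfl⟩⟩
  · have hs := eps_sg H ht.1
    obtain ⟨o, ho, hoF⟩ : ∃ o : ℤ, |o| ≤ c ∧ (H.up.U ^ o) (x * h) ∈ F := by
      rcases hh with hh | hh
      · refine shF H hF (l := [t, B.inv a]) (by simp) ?_
        have e : B.fin x [t, B.inv a] = x * sg B a t := by
          show x * B.q t * B.q (B.inv a) = _
          rw [B.q_inv, mul_assoc]
          rfl
        rw [e, hh]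
        have h1 := comm_mem H hs i
        have h2 : (x * sg B a t)⁻¹ * (x * (wC B a b ^ i * sg B a t * wC B a b ^ (-i))) =
          (sg B a t)⁻¹ * (wC B a b ^ i * sg B a t * wC B a b ^ (-i)) := by group
        rwa [h2]
      · refine shF H hF (l := [a, B.inv t]) (by simp) ?_
        have e : B.fin x [a, B.inv t] = x * (sg B a t)⁻¹ := by
          show x * B.q a * B.q (B.inv t) = _
          unfold sg
          rw [B.q_inv]
          group
        rw [e, hh]
        have h1 := comm_mem H (g := (sg B a t)⁻¹) (by rw [map_inv, hs, inv_one]) i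
        have h2 : (x * (sg B a t)⁻¹)⁻¹ * (x * (wC B a b ^ i * sg B a t * wC B a b ^ (-i))⁻¹) =
          (sg B a t)⁻¹⁻¹ * (wC B a b ^ i * (sg B a t)⁻¹ * wC B a b ^ (-i)) := by group
        rwa [h2]
    obtain ⟨m, hm, hrf⟩ := rf_U H hxh o
    refine ⟨_, hoF, lnU_z _ _ _, Or.inr ?_⟩
    rcases hh with hh | hh
    · refine ⟨t, -m, i, ht, by rw [abs_neg]; exact hm.trans ho, Or.inl ?_⟩
      rw [hrf, zpow_neg, mul_inv_cancel_right, hh]
    · refine ⟨t, m, i - m, ht, hm.trans ho, Or.inr ?_⟩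
      rw [hrf, hh]
      have e1 : wC B a b ^ m * (wC B a b ^ (i - m) * sg B a t * wC B a b ^ (-(i - m))) =
        wC B a b ^ i * sg B a t * wC B a b ^ (-i) * wC B a b ^ m := by
        rw [← mul_assoc, ← mul_assoc, ← zpow_add, mul_assoc _ (wC B a b ^ (-i)), ← zpow_add,
          show m + (i - m) = i by ring, show -i + m = -(i - m) by ring]
      rw [mul_assoc, mul_assoc, e1, inv_mul_cancel_left]

/-- The graph of the lines. -/
def Eg (H : HypC B a b eps D z k) (L L' : Quotient (Equiv.Perm.SameCycle.setoid H.up.U)) : Prop :=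
  ∃ y h, eps y = 1 ∧ h ∈ Gn B a b eps D z k ∧ lnU H.up y = L ∧ lnU H.up (y * h) = L'

theorem Eg_symm {L L' : Quotient (Equiv.Perm.SameCycle.setoid H.up.U)} (h : Eg H L L') : Eg H L' L := by
  obtain ⟨y, h, hy, hh, rfl, rfl⟩ := h
  exact ⟨y * h, h⁻¹, by rw [map_mul, hy, eps_Gn H hh, one_mul], Gn_inv hh, rfl, by rw [mul_inv_cancel_right]⟩

theorem Eg_at {L L' : Quotient (Equiv.Perm.SameCycle.setoid H.up.U)} (h : Eg H L L') {y : Q} (hy : eps y = 1)
    (hL : lnU H.up y = L) : ∃ h ∈ Gn B a b eps D z k, lnU H.up (y * h) = L' := by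
  obtain ⟨y', h, hy', hh, h1, rfl⟩ := h
  obtain ⟨j, rfl⟩ := (lnU_iff' H hy' hy).1 (h1.trans hL.symm)
  refine ⟨wC B a b ^ (-j) * h * wC B a b ^ (- -j), Gn_conj H hh (-j), ?_⟩
  symm
  rw [lnU_iff' H]
  · refine ⟨j, ?_⟩
    rw [neg_neg]
    group
  · rw [map_mul, hy', eps_Gn H hh, one_mul]
  · rw [map_mul, eps_Gn H (Gn_conj H hh (-j)), map_mul, map_zpow, eps_w H, one_zpow, hy', one_mul, one_mul]

/-- The graph of the lines is connected. -/
theorem Eg_conn (ρ : Quotient (Equiv.Perm.SameCycle.setoid H.up.U) → Quotient (Equiv.Perm.SameCycle.setoid H.up.U) → Prop)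
    (hρ : Equivalence ρ) (hE : ∀ L L', Eg H L L' → ρ L L') : ∀ L L', ρ L L' := by
  have := H.fin
  let K : Subgroup Q :=
    { carrier := {g | eps g = 1 ∧ ∀ y, eps y = 1 → ρ (lnU H.up y) (lnU H.up (y * g))}
      one_mem' := ⟨map_one _, fun y _ => by rw [mul_one]; exact hρ.refl _⟩
      mul_mem' := by
        rintro g g' ⟨h1, h2⟩ ⟨h3, h4⟩
        refine ⟨by rw [map_mul, h1, h3, one_mul], fun y hy => ?_⟩
        have h5 := h4 (y * g) (by rw [map_mul, hy, h1, one_mul])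
        rw [mul_assoc] at h5
        exact hρ.trans (h2 y hy) h5
      inv_mem' := by
        rintro g ⟨h1, h2⟩
        refine ⟨by rw [map_inv, h1, inv_one], fun y hy => ?_⟩
        have h5 := h2 (y * g⁻¹) (by rw [map_mul, map_inv, hy, h1, inv_one, one_mul])
        rw [inv_mul_cancel_right] at h5
        exact hρ.symm h5 }
  have hGn : ∀ h ∈ Gn B a b eps D z k, h ∈ K := fun h hh =>
    ⟨eps_Gn H hh, fun y hy => hE _ _ ⟨y, h, hy, hh, rfl, rfl⟩⟩
  have hw : wC B a b ∈ K := by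
    refine ⟨eps_w H, fun y hy => ?_⟩
    have h1 : lnU H.up y = lnU H.up (y * wC B a b) := by
      rw [lnU_iff' H hy (by rw [map_mul, hy, eps_w H, one_mul])]
      exact ⟨1, by rw [zpow_one]⟩
    rw [h1]
    exact hρ.refl _
  have hSI : ∀ q ∈ SI B a b eps D z k, q ∈ K := fun q hq => hGn q (Or.inl hq)
  have hEI : EI B a b eps D z k ≤ K := by
    unfold EI
    rw [Subgroup.closure_le]
    exact fun q hq => hSI q hq
  have hsg : ∀ t : B.L, eps (B.q t) = -1 → sg B a t ∈ K := by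
    intro t ht
    by_cases h : EffL B a b eps D z k t
    · apply hGn
      refine Or.inr ⟨t, 0, h, Or.inl ?_⟩
      rw [neg_zero, zpow_zero, one_mul, mul_one]
    · unfold EffL at h
      by_cases h1 : B.q t * (B.q a)⁻¹ ∈ EI B a b eps D z k
      · exact hEI h1
      · have h2 : B.q t * (B.q b)⁻¹ ∈ EI B a b eps D z k := by
          by_contra h2
          exact h ⟨ht, h1, h2⟩
        have e : sg B a t = (B.q t * (B.q b)⁻¹) * (wC B a b)⁻¹ := by
          unfold sg wC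
          group
        rw [e]
        exact K.mul_mem (hEI h2) (K.inv_mem hw)
  have hrot : ∀ t : B.L, eps (B.q t) = 1 → ∀ n, uC (B.q a) (B.q b) n * B.q t * (uC (B.q a) (B.q b) n)⁻¹ ∈ K := by
    intro t ht n
    apply hSI
    refine ⟨1, Subgroup.one_mem _, n, t, ht, ?_⟩
    rw [one_mul]
  -- Schreier
  have key : ∀ g : Q, (eps g = 1 ∧ g ∈ K) ∨ (eps g = -1 ∧ g * (B.q a)⁻¹ ∈ K) := by
    have hstep : ∀ (g : Q) (t : B.L), ((eps g = 1 ∧ g ∈ K) ∨ (eps g = -1 ∧ g * (B.q a)⁻¹ ∈ K)) →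
        ((eps (g * B.q t) = 1 ∧ g * B.q t ∈ K) ∨ (eps (g * B.q t) = -1 ∧ g * B.q t * (B.q a)⁻¹ ∈ K)) := by
      intro g t hg
      rcases hg with ⟨h1, h2⟩ | ⟨h1, h2⟩ <;> rcases Int.units_eq_one_or (eps (B.q t)) with h3 | h3
      · left
        refine ⟨by rw [map_mul, h1, h3, one_mul], K.mul_mem h2 ?_⟩
        have h4 := hrot t h3 0
        have e : uC (B.q a) (B.q b) 0 = 1 := rfl
        rwa [e, one_mul, inv_one, mul_one] at h4
      · right
        refine ⟨by rw [map_mul, h1, h3, one_mul], ?_⟩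
        rw [mul_assoc]
        exact K.mul_mem h2 (hsg t h3)
      · right
        refine ⟨by rw [map_mul, h1, h3, mul_one], ?_⟩
        have h4 := hrot t h3 1
        have e : uC (B.q a) (B.q b) 1 = B.q a := by
          show (1 : Q) * (if 0 % 2 = 0 then B.q a else (B.q b)⁻¹) = _
          rw [if_pos rfl, one_mul]
        rw [e] at h4
        have h5 := K.mul_mem h2 h4
        have e2 : g * (B.q a)⁻¹ * (B.q a * B.q t * (B.q a)⁻¹) = g * B.q t * (B.q a)⁻¹ := by group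
        rwa [e2] at h5
      · left
        refine ⟨by rw [map_mul, h1, h3]; decide, ?_⟩
        have h4 := hsg (B.inv t) (by rw [B.q_inv, map_inv, h3]; decide)
        have h5 := K.mul_mem h2 (K.inv_mem h4)
        have e2 : g * (B.q a)⁻¹ * (sg B a (B.inv t))⁻¹ = g * B.q t := by
          unfold sg
          rw [B.q_inv]
          group
        rwa [e2] at h5
    intro g
    have hg : g ∈ Subgroup.closure (Set.range B.q) := by rw [H.gen]; exact Subgroup.mem_top _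
    have h1 : g ∈ Submonoid.closure (Set.range B.q) := by
      rw [← Subgroup.closure_toSubmonoid_of_finite]
      exact hg
    induction h1 using Submonoid.closure_induction_right with
    | one => exact Or.inl ⟨map_one _, K.one_mem⟩
    | mul_right g _ y hy ih =>
      obtain ⟨t, rfl⟩ := hy
      exact hstep g t (ih (by rw [H.gen]; exact Subgroup.mem_top _))
  intro L L'
  obtain ⟨y, hy, rfl⟩ := lnU_ker H L
  obtain ⟨y', hy', rfl⟩ := lnU_ker H L'
  rcases key (y⁻¹ * y') with h | h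
  · have h1 := h.2.2 y hy
    rwa [mul_inv_cancel_left] at h1
  · exfalso
    have h1 := h.1
    rw [map_mul, map_inv, hy, hy'] at h1
    exact absurd h1 (by decide)

theorem card_lines (h3 : 3 ≤ (Subgroup.zpowers (B.q a * (B.q b)⁻¹)).relIndex eps.ker) :
    3 ≤ Nat.card (Quotient (Equiv.Perm.SameCycle.setoid H.up.U)) := by
  have := H.fin
  refine h3.trans ?_
  show ((Subgroup.zpowers (B.q a * (B.q b)⁻¹)).subgroupOf eps.ker).index ≤ _
  rw [Subgroup.index_eq_card]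
  refine Nat.card_le_card_of_injective
    (fun q : eps.ker ⧸ (Subgroup.zpowers (B.q a * (B.q b)⁻¹)).subgroupOf eps.ker => lnU H.up (q.out : Q)) ?_
  intro q q' hq
  have h1 := (lnU_iff H).1 hq
  rw [ln_iff H (q.out).2 (q'.out).2] at h1
  have h2 : ((q.out)⁻¹ * q'.out : eps.ker) ∈ (Subgroup.zpowers (B.q a * (B.q b)⁻¹)).subgroupOf eps.ker := h1
  rw [← QuotientGroup.eq] at h2
  have e1 : ((q.out : eps.ker) : eps.ker ⧸ (Subgroup.zpowers (B.q a * (B.q b)⁻¹)).subgroupOf eps.ker) = q :=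
    Quotient.out_eq' q
  have e2 : ((q'.out : eps.ker) : eps.ker ⧸ (Subgroup.zpowers (B.q a * (B.q b)⁻¹)).subgroupOf eps.ker) = q' :=
    Quotient.out_eq' q'
  rw [e1, e2] at h2
  exact h2

end

end Ct

open Ct in
/-- CTX. -/
theorem ctxC : CtxCS := by
  intro Q _ _ B a b eps D z k H h3 c W hP hW
  obtain ⟨d, cl, N, cc, ll, mm, rk, hN, hEl, hEm, hd₁, hd₂, hcl, hone, hodd, hT, hcov⟩ :=
    H58.treeAbs (Quotient (Equiv.Perm.SameCycle.setoid H.up.U)) (Eg H) (fun _ _ h => Eg_symm H h) (Eg_conn H)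
      (card_lines H h3)
  -- representatives
  choose x hxe hxL using fun i => lnU_ker H (cc i)
  choose F hF hF0 using fun i => H59.one_front0 H c W hP (by omega) (x i)
  have h₁ : ∀ i, ∃ s ∈ F i, lnU H.up s = ll i ∧ Edg H c (x i) s := by
    intro i
    obtain ⟨h, hh, h1⟩ := Eg_at H (hEl i) (hxe i) (hxL i)
    obtain ⟨s, hs, h2, h3⟩ := leaf H (hxe i) (hF i) hh
    exact ⟨s, hs, h2.trans h1, h3⟩
  have h₂ : ∀ i, ∃ s ∈ F i, lnU H.up s = mm i ∧ Edg H c (x i) s := by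
    intro i
    obtain ⟨h, hh, h1⟩ := Eg_at H (hEm i) (hxe i) (hxL i)
    obtain ⟨s, hs, h2, h3⟩ := leaf H (hxe i) (hF i) hh
    exact ⟨s, hs, h2.trans h1, h3⟩
  choose s₁ hs₁F hs₁L hs₁E using h₁
  choose s₂ hs₂F hs₂L hs₂E using h₂
  have hU : ∀ y, lnU H.up (H.up.U y) = lnU H.up y := by
    intro y
    have h := lnU_z H.up y 1
    rwa [zpow_one] at h
  have htree : TreeK (lnU H.up) (fun y => cl (lnU H.up y)) x s₁ s₂ rk :=
    { cl := fun i => by rw [hxL, hs₁L]; exact hT.cl i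
      cm := fun i => by rw [hxL, hs₂L]; exact hT.cm i
      lm := fun i => by rw [hs₁L, hs₂L]; exact hT.lm i
      kl := fun i => by rw [hxL, hs₁L]; exact hT.kl i
      km := fun i => by rw [hxL, hs₂L]; exact hT.km i
      two := fun i => by
        obtain ⟨p, h1, h2⟩ := hT.two i
        refine ⟨fun y => p (lnU H.up y), ?_, ?_⟩
        · beta_reduce
          rw [hxL, hs₁L, hs₂L]; exact h1
        · intro y hy j hj h
          rw [hxL, hs₁L, hs₂L] at h
          exact h2 _ hy j hj h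
      cov := fun ρ hρ h y y' hy => by
        refine hT.cov ρ hρ (fun i => ?_) (lnU H.up y) (lnU H.up y') hy
        have := h i
        rwa [hxL, hs₁L, hs₂L] at this }
  refine ⟨fun y => d (lnU H.up y), fun y => cl (lnU H.up y), N, x, s₁, s₂, F, rk, ?_⟩
  exact
    { pos := hN
      d_line := fun y => by rw [hU]
      c_line := fun y => by rw [hU]
      d₁ := fun i => by rw [hxL, hs₁L]; exact hd₁ i
      d₂ := fun i => by rw [hxL, hs₂L]; exact hd₂ i
      tree := htree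
      ex := hxe
      cx := fun i => by rw [hxL]; exact (hcl i).1
      fr := hF
      fs0 := hF0
      f₁ := hs₁F
      f₂ := hs₂F
      e₁ := hs₁E
      e₂ := hs₂E
      one := fun y y' h h' => hone _ _ h h'
      odd := by
        have e : ∀ L : Quotient (Equiv.Perm.SameCycle.setoid H.up.U),
            (∃ y, lnU H.up y = L ∧ cl (lnU H.up y) = false) ↔ cl L = false := by
          intro L
          constructor
          · rintro ⟨y, rfl, h⟩; exact h
          · intro h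
            obtain ⟨y, -, rfl⟩ := lnU_ker H L
            exact ⟨y, rfl, h⟩
        rw [Nat.card_congr (Equiv.subtypeEquivRight e)]
        exact hodd
      cov := fun y hy => by
        obtain ⟨i, h⟩ := hcov (lnU H.up y) hy
        refine ⟨i, ?_⟩
        rw [hxL, hs₁L, hs₂L]
        exact h
      near := SQ4.near Q B a b eps D z k H c W (fun y => cl (lnU H.up y)) N x s₁ s₂ F rk hF hs₁F hs₂F htree }

/-- WORLD without the flips: the windows are given. -/
theorem CtxC.world {Q : Type} [Group Q] [DecidableEq Q] {B : Lb.{0, 0} Q} {a b : B.L} {eps : Q →* ℤˣ}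
    {D : Subgroup Q} {z : Q} {k : ℕ} {H : HypC B a b eps D z k} {c W : ℕ} {d cl : Q → Bool} {N : ℕ}
    {x s₁ s₂ : Fin N → Q} {F : Fin N → Finset Q} {rk : Fin N → ℕ} (h : CtxC H c W d cl x s₁ s₂ F rk) {Λ : ℕ}
    (t₀ : Fin N → ℕ) (ht : ∀ i, t₀ i ≤ Λ)
    (hw : ∀ i, ∃ (X : TW B) (n : ℕ), n ≤ Λ ∧ FWin H.up (2 * k) (F i) (t₀ i) (x i) (s₁ i) (s₂ i) X n) :
    World H.up (2 * k) W ((Nat.card B.L + 2) ^ 4 * k) ((Nat.card B.L + 2) ^ 20 * k ^ 8) Λ d cl x s₁ s₂ F t₀ rk where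
  pos := h.pos
  d_line := h.d_line
  c_line := h.c_line
  d₁ := h.d₁
  d₂ := h.d₂
  tree := h.tree
  disj i := (h.fr i).disj
  fx i := (h.fr i).fx
  f₁ := h.f₁
  f₂ := h.f₂
  fcard i := (h.fr i).fcard
  near := h.near
  t_le := ht
  win := hw

end Pool.Agent.Lib.MP_688fd0_co.SQ4.CV
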