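import Pool.Agent.Lib.MP_688fd0_co.SQ4.H98.IfaceF

/-!
Type C1, row ASM: a family from copies of the inner block and of a cross block.
-/

set_option autoImplicit false

namespace Pool.Agent.Lib.MP_688fd0_co.SQ4.CV

open Pool.Agent.Lib.MP_688fd0_co.OSF Pool.Agent.Lib.MP_688fd0_co.SQ2 Pool.Agent.Lib.MP_688fd0_co.SQ3
open Pool.Agent.Lib.MP_688fd0_co.SQ4
open SQ2.V (Puz)

namespace As

section

variable {S : Type} [Fintype S] {Q : Type} [Group Q] [DecidableEq Q] {B : Lb.{0, 0} Q} {U : Up B} {g : S → Q}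
  {inj : Function.Injective g} {e : ℕ}

/-- Copies of two classes. -/
def asW {R R' : Type} (X : ClsW U g inj e R) (X' : ClsW U g inj e R') (c₁ c₂ : ℕ) :
    ClsW U g inj e ((Fin c₁ × R) ⊕ (Fin c₂ × R')) where
  lev := Sum.elim (fun r => X.lev r.2) fun r => X'.lev r.2
  lev_lt := by
    rintro (r | r)
    · exact X.lev_lt r.2
    · exact X'.lev_lt r.2
  H := Sum.elim (fun r => X.H r.2) fun r => X'.H r.2
  x := Sum.elim (fun r => X.x r.2) fun r => X'.x r.2
  y := Sum.elim (fun r => X.y r.2) fun r => X'.y r.2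
  tau := Equiv.sumCongr (Equiv.prodCongr (Equiv.refl _) X.tau) (Equiv.prodCongr (Equiv.refl _) X'.tau)
  W := Sum.elim (fun r => X.W r.2) fun r => X'.W r.2
  L₀ := by
    rintro (r | r)
    · exact X.L₀ r.2
    · exact X'.L₀ r.2
  L₁ := by
    rintro (r | r)
    · exact X.L₁ r.2
    · exact X'.L₁ r.2
  u₀ := by
    rintro (r | r)
    · exact X.u₀ r.2
    · exact X'.u₀ r.2
  u₁ := by
    rintro (r | r)
    · exact X.u₁ r.2
    · exact X'.u₁ r.2
  w₀ := by
    rintro (r | r)
    · exact X.w₀ r.2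
    · exact X'.w₀ r.2
  w₁ := by
    rintro (r | r)
    · exact X.w₁ r.2
    · exact X'.w₁ r.2
  reg := by
    rintro (r | r)
    · exact X.reg r.2
    · exact X'.reg r.2

variable {R R' : Type} {X : ClsW U g inj e R} {X' : ClsW U g inj e R'} {c₁ c₂ : ℕ}

theorem asW_clo {A : S → Prop} (h : X.Clo A) (h' : X'.Clo A) : (asW X X' c₁ c₂).Clo A where
  y := by
    rintro (r | r)
    · exact h.y r.2
    · exact h'.y r.2
  tau := by
    rintro (r | r)
    · exact h.tau r.2
    · exact h'.tau r.2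
  tok := by
    rintro (r | r)
    · exact h.tok r.2
    · exact h'.tok r.2

theorem asW_th {F : Type} [CommRing F] {V : Ev B F} {A : S → Prop} {c : F} (h : X.Th V A c) (h' : X'.Th V A c) :
    (asW X X' c₁ c₂).Th V A c := by
  rintro (r | r)
  · exact h r.2
  · exact h' r.2

theorem asW_cu {F : Type} [CommRing F] {V : Ev B F} {cu : R → F} {cu' : R' → F} (h : X.Cu V cu) (h' : X'.Cu V cu') :
    (asW X X' c₁ c₂).Cu V (Sum.elim (fun r => cu r.2) fun r => cu' r.2) where
  cup := by
    rintro (r | r)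
    · exact h.cup r.2
    · exact h'.cup r.2
  cap := by
    rintro (r | r)
    · exact h.cap r.2
    · exact h'.cap r.2

end

/-- Counting in a sum of copies. -/
theorem ncard_inl {R R' : Type} {c₁ c₂ : ℕ} (P : R → Prop) (p : (Fin c₁ × R) ⊕ (Fin c₂ × R') → Prop)
    (h1 : ∀ r, p (Sum.inl r) ↔ P r.2) (h2 : ∀ r, ¬ p (Sum.inr r)) : {r | p r}.ncard = c₁ * {r | P r}.ncard := by
  have e : {r | p r} = Sum.inl '' ((Set.univ : Set (Fin c₁)) ×ˢ {r | P r}) := by
    ext r
    rcases r with r | r
    · constructor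
      · intro h
        exact ⟨r, ⟨trivial, (h1 r).1 h⟩, rfl⟩
      · rintro ⟨r', h, h'⟩
        rw [← Sum.inl.inj h']
        exact (h1 r').2 h.2
    · constructor
      · intro h
        exact absurd h (h2 r)
      · rintro ⟨r', h, h'⟩
        exact absurd h' (by simp)
  rw [e, Set.ncard_image_of_injective _ Sum.inl_injective, Set.ncard_prod, Set.ncard_univ, Nat.card_eq_fintype_card,
    Fintype.card_fin]

theorem ncard_inr {R R' : Type} {c₁ c₂ : ℕ} (P : R' → Prop) (p : (Fin c₁ × R) ⊕ (Fin c₂ × R') → Prop)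
    (h1 : ∀ r, p (Sum.inr r) ↔ P r.2) (h2 : ∀ r, ¬ p (Sum.inl r)) : {r | p r}.ncard = c₂ * {r | P r}.ncard := by
  have e : {r | p r} = Sum.inr '' ((Set.univ : Set (Fin c₂)) ×ˢ {r | P r}) := by
    ext r
    rcases r with r | r
    · constructor
      · intro h
        exact absurd h (h2 r)
      · rintro ⟨r', h, h'⟩
        exact absurd h' (by simp)
    · constructor
      · intro h
        exact ⟨r, ⟨trivial, (h1 r).1 h⟩, rfl⟩
      · rintro ⟨r', h, h'⟩
        rw [← Sum.inr.inj h']
        exact (h1 r').2 h.2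
  rw [e, Set.ncard_image_of_injective _ Sum.inr_injective, Set.ncard_prod, Set.ncard_univ, Nat.card_eq_fintype_card,
    Fintype.card_fin]

/-- Counting in a sigma type with constant fibres. -/
theorem ncard_sigma {C R : Type} [Fintype C] [Finite R] (P : (Σ _ : C, R) → Prop) {m : ℕ}
    (h : ∀ c, {r | P ⟨c, r⟩}.ncard = m) : {r | P r}.ncard = Fintype.card C * m := by
  have e : Nat.card {r // P r} = ∑ c : C, Nat.card {r // P ⟨c, r⟩} := by
    rw [← Nat.card_sigma]
    refine Nat.card_congr ?_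
    exact
      { toFun := fun r => ⟨r.1.1, ⟨r.1.2, r.2⟩⟩
        invFun := fun r => ⟨⟨r.1, r.2.1⟩, r.2.2⟩
        left_inv := fun r => rfl
        right_inv := fun r => rfl }
  have e1 : {r | P r}.ncard = Nat.card {r // P r} := rfl
  have e2 : ∀ c, Nat.card {r // P ⟨c, r⟩} = m := fun c => h c
  rw [e1, e, Finset.sum_congr rfl fun c _ => e2 c, Finset.sum_const, Finset.card_univ, smul_eq_mul]

end As

open As in
/-- ASM. -/
theorem asm (hI : InbS) (hL : LzaS) : AsmS := by
  classical
  intro S _ _ Q _ _ B a b eps D z k H g inj hg Y₀ Y₁ hY Pos _ ps hps s n M R _ X wd d h c₁ c₂ hX hc₁ hc₂ hcc hh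
  have hk := H.kpos
  have hfL := H.finL
  have : NeZero (2 * k) := ⟨by omega⟩
  obtain ⟨XI, hB, hx, hsh, hrf, htau, hcnt⟩ := hI S Q B a b eps D z k H g inj hg (fun v => Y₀ v ∨ Y₁ v) hY Pos ps hps.ok
    (2 * (k * (k + 1)) + 1) hps.len
  -- the rungs of the inner block
  have hfT : Finite {t : B.L // eps (B.q t) = 1} := inferInstance
  have := Fintype.ofFinite {t : B.L // eps (B.q t) = 1}
  obtain ⟨t₀, ht₀⟩ := H.rot
  obtain ⟨c₀, hc₀⟩ := hps.emp
  have hex : ∀ v, (Y₀ v ∨ Y₁ v) → ∀ (t : {t : B.L // eps (B.q t) = 1}) (c : Pos) (n : ℕ), n < 2 * k →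
      ∃ r : RI B eps k Pos (fun v => Y₀ v ∨ Y₁ v), r.1 = (t, c) ∧ XI.x r = v ∧
        (r.2.1.val + eeC eps (g r.2.2)) % (2 * k) = n := by
    intro v hv t c n hn
    refine ⟨⟨(t, c), ((n : ZMod (2 * k)) - (eeC eps (g v) : ZMod (2 * k)), ⟨v, hv⟩)⟩, rfl, hx _, ?_⟩
    show (((n : ZMod (2 * k)) - (eeC eps (g v) : ZMod (2 * k))).val + eeC eps (g v)) % (2 * k) = n
    rw [← ZMod.val_natCast]
    push_cast
    rw [ZMod.natCast_val, ZMod.cast_id, sub_add_cancel, ZMod.val_natCast, Nat.mod_eq_of_lt hn]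
  have hSI : ∀ r, ∃ q ∈ SI B a b eps D z k, rfC eps (B.q a) (g (XI.y r)) = rfC eps (B.q a) (g (XI.x r)) * q := by
    intro r
    refine ⟨_, ⟨_, mL_mZ H (hps.ok r.1.2), r.2.1.val + eeC eps (g r.2.2), r.1.1, r.1.1.2, rfl⟩, ?_⟩
    exact hrf r _ rfl
  have hEI : ∀ r, (rfC eps (B.q a) (g (XI.x r)))⁻¹ * rfC eps (B.q a) (g (XI.y r)) ∈ EI B a b eps D z k := by
    intro r
    obtain ⟨q, hq, h1⟩ := hSI r
    rw [h1, inv_mul_cancel_left]
    exact Subgroup.subset_closure hq
  -- every element of `mZ` is a shift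
  have hmL : ∀ m ∈ mZ B a b D z k, ∃ c, mL (B.q a) (B.q b) (ps c) = m := by
    intro m hm
    obtain ⟨q₀, hq₀, hq₀'⟩ := hps.cnt
    by_contra hcon
    push Not at hcon
    have h1 := hq₀' m hm
    have h2 : {c | mL (B.q a) (B.q b) (ps c) = m} = ∅ := Set.eq_empty_of_forall_notMem fun c hc => hcon c hc
    rw [h2, Set.ncard_empty] at h1
    omega
  -- sets closed under the inner rungs
  have hPl : ∀ A : S → Prop, (∀ r, A (XI.x r) ↔ A (XI.y r)) → PlA H g (fun v => Y₀ v ∨ Y₁ v) A := by
    intro A hA v v' hv hvv' q hqS hq hAv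
    obtain ⟨m, hm, l, t, ht, rfl⟩ := hqS
    obtain ⟨c, hc⟩ := hmL m hm
    obtain ⟨r, hr1, hr2, hr3⟩ := hex v hv ⟨t, ht⟩ c (l % (2 * k)) (Nat.mod_lt _ (by omega))
    have hr4 := hrf r l (by
      rw [← ZMod.natCast_mod (r.2.1.val + eeC eps (g r.2.2)), hr3, ZMod.natCast_mod])
    have e1 : r.1.2 = c := by rw [hr1]
    have e2 : (r.1.1 : B.L) = t := by rw [hr1]
    rw [hr2, e1, e2, hc] at hr4
    have e4 : rfC eps (B.q a) (g (XI.y r)) = rfC eps (B.q a) (g v') := by rw [hr4, hq]
    have h1 := hsh r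
    rw [hr2] at h1
    have e5 : Sh D (g (XI.y r)) (g v') := h1.symm.trans hvv'
    have e6 : XI.y r = v' := by
      apply inj
      have e7 := sh_eps H e5
      unfold rfC at e4
      rw [e7] at e4
      split_ifs at e4
      · exact e4
      · exact mul_right_cancel e4
    rw [← e6]
    exact (hA r).1 (by rw [hr2]; exact hAv)
  obtain ⟨Z, hZ⟩ : ∃ Z, Z = asW XI X c₁ c₂ := ⟨_, rfl⟩
  have hZx1 : ∀ i r, Z.x (Sum.inl (i, r)) = XI.x r := fun i r => by rw [hZ]; rfl
  have hZy1 : ∀ i r, Z.y (Sum.inl (i, r)) = XI.y r := fun i r => by rw [hZ]; rfl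
  have hZx2 : ∀ i r, Z.x (Sum.inr (i, r)) = X.x r := fun i r => by rw [hZ]; rfl
  have hZy2 : ∀ i r, Z.y (Sum.inr (i, r)) = X.y r := fun i r => by rw [hZ]; rfl
  have hZH1 : ∀ i r, Z.H (Sum.inl (i, r)) = XI.H r := fun i r => by rw [hZ]; rfl
  have hZH2 : ∀ i r, Z.H (Sum.inr (i, r)) = X.H r := fun i r => by rw [hZ]; rfl
  let wd' : (Fin c₁ × RI B eps k Pos (fun v => Y₀ v ∨ Y₁ v)) ⊕ (Fin c₂ × R) → List B.L :=
    Sum.elim (fun r => wdI H g ps r.2) fun r => wd r.2
  let In : (Fin c₁ × RI B eps k Pos (fun v => Y₀ v ∨ Y₁ v)) ⊕ (Fin c₂ × R) → Prop := fun r => r.isLeft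
  have hIn1 : ∀ r, In (Sum.inl r) := fun r => rfl
  have hIn2 : ∀ r, ¬ In (Sum.inr r) := fun r h => Bool.false_ne_true h
  have := Fintype.ofFinite ((Fin c₁ × RI B eps k Pos (fun v => Y₀ v ∨ Y₁ v)) ⊕ (Fin c₂ × R))
  have hclo : ∀ A : S → Prop, (∀ r, A (Z.x r) ↔ A (Z.y r)) →
      (∀ r, A (XI.x r) ↔ A (XI.y r)) ∧ (∀ r, A (X.x r) ↔ A (X.y r)) := by
    intro A hA
    refine ⟨fun r => ?_, fun r => ?_⟩
    · have h1 := hA (Sum.inl (⟨0, hc₁⟩, r))
      rwa [hZx1, hZy1] at h1
    · have h1 := hA (Sum.inr (⟨0, hc₂⟩, r))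
      rwa [hZx2, hZy2] at h1
  refine ⟨_, inferInstance, Z, wd', In, ?_, ?_⟩
  · rw [← Nat.card_eq_fintype_card, Nat.card_sum, Nat.card_prod, Nat.card_prod, Nat.card_eq_fintype_card,
      Nat.card_eq_fintype_card (α := Fin c₂), Fintype.card_fin, Fintype.card_fin, Nat.card_eq_fintype_card (α := R),
      Nat.card_sigma, Finset.sum_const, Finset.card_univ, Fintype.card_prod, Nat.card_prod, Nat.card_zmod, smul_eq_mul,
      Nat.card_eq_fintype_card (α := {t : B.L // eps (B.q t) = 1})]
  · exact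
      { xY := by
          rintro (⟨i, r⟩ | ⟨i, r⟩)
          · rw [hZx1]; exact hB.xY r
          · rw [hZx2]; exact hX.cls.xY r
        yY := by
          rintro (⟨i, r⟩ | ⟨i, r⟩)
          · rw [hZy1]; exact hB.yY r
          · rw [hZy2]; exact hX.cls.yY r
        fin := by
          rintro (⟨i, r⟩ | ⟨i, r⟩)
          · rw [hZx1, hZy1]; exact hB.fin r
          · rw [hZx2, hZy2]; exact hX.cls.fin r
        clo := by
          intro A hA
          obtain ⟨h1, h2⟩ := hclo A hA
          rw [hZ]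
          exact asW_clo (hB.clo A h1) (hX.cls.clo A ⟨h2, hPl A h1⟩)
        tin := by
          rw [hZ]
          rintro (⟨i, r⟩ | ⟨i, r⟩)
          · exact Iff.rfl
          · exact Iff.rfl
        inner := by
          rintro (⟨i, r⟩ | ⟨i, r⟩) hr
          · rw [hZx1, hZy1]
            exact ⟨hsh r, hSI r⟩
          · exact absurd hr (hIn2 _)
        inn := by
          intro v hv q hq
          obtain ⟨m, hm, l, t, ht, rfl⟩ := hq
          obtain ⟨c, hc⟩ := hmL m hm
          obtain ⟨r, hr1, hr2, hr3⟩ := hex v hv ⟨t, ht⟩ c (l % (2 * k)) (Nat.mod_lt _ (by omega))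
          have hr4 := hrf r l (by
            rw [← ZMod.natCast_mod (r.2.1.val + eeC eps (g r.2.2)), hr3, ZMod.natCast_mod])
          have e1 : r.1.2 = c := by rw [hr1]
          have e2 : (r.1.1 : B.L) = t := by rw [hr1]
          refine ⟨Sum.inl (⟨0, hc₁⟩, r), hIn1 _, by rw [hZx1, hr2], ?_⟩
          rw [hZy1, hr4, e1, e2, hc, hr2]
        inn0 := by
          intro v hv t ht l hl
          obtain ⟨r, hr1, hr2, hr3⟩ := hex v hv ⟨t, ht⟩ c₀ l hl
          have e1 : r.1.2 = c₀ := by rw [hr1]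
          have e2 : (r.1.1 : B.L) = t := by rw [hr1]
          refine ⟨Sum.inl (⟨0, hc₁⟩, r), hIn1 _, by rw [hZx1, hr2], ?_⟩
          show wdI H g ps r = _
          unfold wdI
          rw [e1, e2, hc₀, hr3]
          show PW H.up l t l = _
          unfold PW IW
          show _ = [] ++ H.up.str l 1 ++ t :: (B.rev (H.up.str l 1) ++ B.rev [])
          have e3 : B.rev ([] : List B.L) = [] := rfl
          rw [e3, List.nil_append, List.append_nil]
        innL := by
          intro v hv t ht p hp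
          obtain ⟨c, hc⟩ := hps.one p hp
          obtain ⟨r, hr1, hr2, hr3⟩ := hex v hv ⟨t, ht⟩ c 0 (by omega)
          have e1 : r.1.2 = c := by rw [hr1]
          have e2 : (r.1.1 : B.L) = t := by rw [hr1]
          refine ⟨Sum.inl (⟨0, hc₁⟩, r), hIn1 _, by rw [hZx1, hr2], ?_⟩
          show wdI H g ps r = _
          unfold wdI
          rw [e1, e2, hr3, hc]
          unfold PW IW
          have e3 : H.up.str 0 (1 : Q) = [] := rfl
          have e4 : B.rev ([] : List B.L) = [] := rfl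
          rw [e3, e4, List.append_nil, List.nil_append, List.nil_append]
          rfl
        wt := by
          let ι : ZMod (2 * k) × {v // Y₀ v ∨ Y₁ v} →
              (Fin c₁ × RI B eps k Pos (fun v => Y₀ v ∨ Y₁ v)) ⊕ (Fin c₂ × R) :=
            fun q => Sum.inl (⟨0, hc₁⟩, ⟨(⟨t₀, ht₀⟩, c₀), q⟩)
          have hι : Function.Injective ι := by
            intro q q' hqq
            have h1 := (Prod.mk.inj (Sum.inl.inj hqq)).2
            exact eq_of_heq (Sigma.mk.inj h1).2
          refine ⟨4 * k, fun r => if r ∈ Set.range ι then 1 else 0, by omega, le_refl _, ?_, ?_⟩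
          · intro r hr
            by_cases hm : r ∈ Set.range ι
            · obtain ⟨q, rfl⟩ := hm
              exact hIn1 _
            · simp only [if_neg hm] at hr
              exact absurd rfl hr
          · intro v hv
            have h1 := hcnt (⟨t₀, ht₀⟩, c₀) v hv
            rw [← h1]
            have h2 : ∀ r, (if v = Z.x r ∨ v = Z.y r then (if r ∈ Set.range ι then 1 else 0) else 0) =
                if r ∈ ι '' {q | v = XI.x ⟨(⟨t₀, ht₀⟩, c₀), q⟩ ∨ v = XI.y ⟨(⟨t₀, ht₀⟩, c₀), q⟩} then 1 else 0 := by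
              intro r
              by_cases hm : r ∈ Set.range ι
              · obtain ⟨q, rfl⟩ := hm
                have e6 : ι q ∈ Set.range ι := Set.mem_range_self q
                rw [if_pos e6]
                have e5 : (v = Z.x (ι q) ∨ v = Z.y (ι q)) ↔
                    ι q ∈ ι '' {q | v = XI.x ⟨(⟨t₀, ht₀⟩, c₀), q⟩ ∨ v = XI.y ⟨(⟨t₀, ht₀⟩, c₀), q⟩} := by
                  rw [hι.mem_set_image]
                  show (v = Z.x (Sum.inl _) ∨ v = Z.y (Sum.inl _)) ↔ _
                  rw [hZx1, hZy1]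
                  exact Iff.rfl
                exact if_congr e5 rfl rfl
              · rw [if_neg hm, if_neg (fun hh => hm (Set.image_subset_range _ _ hh)), ite_self]
            rw [Finset.sum_congr rfl fun r _ => h2 r, Finset.sum_boole, Nat.cast_id,
              ← Set.ncard_image_of_injective _ hι, ← Set.ncard_coe_finset]
            congr 1
            ext r
            simp
        hle := by
          rintro (⟨i, r⟩ | ⟨i, r⟩)
          · rw [hZH1]; exact (hB.hle r).trans hh
          · rw [hZH2]; exact hX.cls.hle r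
        vol := by
          intro F _ V u u' o hz ho hgood
          have hinv : (evA V eps u u').Inv (z ^ k) := evA_inv V eps u u' (by rw [map_pow, hz, one_pow])
            (by rw [map_pow, H31.C_eps_z H, one_pow])
          have hLZ := hL Q B a b eps D z k H F V u u' o hz ho hgood
          refine ⟨?_, ?_⟩
          · have h1 := hB.vol F (evA V eps u u') o hinv hLZ
            have h2 := hX.cls.vol F (evA V eps u u') o hinv hLZ
            have h3 := asW_cu (c₁ := c₁) (c₂ := c₂) h1 h2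
            have e5 : (fun r => (evA V eps u u').vol (rfC eps (B.q a) (g (Z.x r))) (wd' r) +
                o * ((eeC eps (g (Z.y r)) : F) - (eeC eps (g (Z.x r)) : F))) =
                Sum.elim (fun r : Fin c₁ × RI B eps k Pos (fun v => Y₀ v ∨ Y₁ v) =>
                  (evA V eps u u').vol (rfC eps (B.q a) (g (XI.x r.2))) (wdI H g ps r.2) +
                    o * ((eeC eps (g (XI.y r.2)) : F) - (eeC eps (g (XI.x r.2)) : F)))
                  (fun r : Fin c₂ × R => (evA V eps u u').vol (rfC eps (B.q a) (g (X.x r.2))) (wd r.2) +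
                    o * ((eeC eps (g (X.y r.2)) : F) - (eeC eps (g (X.x r.2)) : F))) := by
              funext r
              rcases r with ⟨i, r⟩ | ⟨i, r⟩
              · rw [hZx1, hZy1]; rfl
              · rw [hZx2, hZy2]; rfl
            rw [e5, hZ]
            exact h3
          · intro A hA
            obtain ⟨h1, h2⟩ := hclo A hA
            rw [hZ]
            exact asW_th (hB.th A h1 F _ o hinv hLZ) (hX.cls.th A ⟨h2, hPl A h1⟩ F _ o hinv hLZ)
        cross := by
          rintro (⟨i, r⟩ | ⟨i, r⟩) hr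
          · exact absurd (hIn1 _) hr
          · rw [hZx2, hZy2]; exact hX.cross r
        crs := by
          intro v v' hv
          obtain ⟨r, hr⟩ := hX.crs v v' hv
          refine ⟨Sum.inr (⟨0, hc₂⟩, r), hIn2 _, ?_⟩
          rw [hZx2, hZy2]
          exact hr
        crs0 := by
          obtain ⟨i, j, hij, hr⟩ := hX.crs0
          refine ⟨i, j, hij, fun v hv e he => ?_⟩
          obtain ⟨r, hr⟩ := hr v hv e he
          refine ⟨Sum.inr (⟨0, hc₂⟩, r), hIn2 _, ?_⟩
          rw [hZx2, hZy2]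
          exact hr
        deg := by
          have hT : 0 < Nat.card {t : B.L // eps (B.q t) = 1} := by
            have : Nonempty {t : B.L // eps (B.q t) = 1} := ⟨⟨t₀, ht₀⟩⟩
            exact Nat.card_pos
          have hP : 0 < Fintype.card Pos := Fintype.card_pos_iff.2 ⟨c₀⟩
          refine ⟨c₂ * d, ?_, fun v hv => ⟨?_, ?_⟩⟩
          · rw [← hcc]
            positivity
          · rw [← hcc, ncard_inl (fun r => v = XI.x r ∨ v = XI.y r)]
            · rw [ncard_sigma (fun r => v = XI.x r ∨ v = XI.y r) fun c => hcnt c v hv, Fintype.card_prod,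
                Nat.card_eq_fintype_card]
              ring
            · rintro ⟨i, r⟩
              rw [hZx1, hZy1]
              exact ⟨fun hh => hh.2, fun hh => ⟨hIn1 _, hh⟩⟩
            · intro r hr
              exact hIn2 _ hr.1
          · rw [ncard_inr (fun r => v = X.x r ∨ v = X.y r), hX.deg v hv]
            · rintro ⟨i, r⟩
              rw [hZx2, hZy2]
              exact ⟨fun hh => hh.2, fun hh => ⟨hIn2 _, hh⟩⟩
            · intro r hr
              exact hr.1 (hIn1 _)
        par := by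
          rintro (⟨i, r⟩ | ⟨i, r⟩) (⟨j, r'⟩ | ⟨j, r'⟩) hr hr'
          · exact absurd (hIn1 _) hr'
          · rw [hZx1, hZy1, hZx2, hZy2]
            rintro (⟨h1, h2⟩ | ⟨h1, h2⟩)
            · refine hX.par r' ⟨?_, ?_⟩
              · rw [← h1, ← h2]; exact hsh r
              · rw [← h1, ← h2]; exact hEI r
            · refine hX.par r' ⟨?_, ?_⟩
              · rw [← h1, ← h2]; exact (hsh r).symm
              · rw [← h1, ← h2]
                have h3 := (EI B a b eps D z k).inv_mem (hEI r)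
                rwa [mul_inv_rev, inv_inv] at h3
          · exact absurd hr (hIn2 _)
          · exact absurd hr (hIn2 _) }

end Pool.Agent.Lib.MP_688fd0_co.SQ4.CV
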