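import Pool.Agent.Lib.MP_688fd0_co.SQ4.H41.Pth

/-!
Type C1, WORLD, row BIGX: the puzzle of a path, if there are effective reflections.
-/

set_option autoImplicit false

namespace Pool.Agent.Lib.MP_688fd0_co.SQ4.CV

open Pool.Agent.Lib.MP_688fd0_co.OSF Pool.Agent.Lib.MP_688fd0_co.SQ2 Pool.Agent.Lib.MP_688fd0_co.SQ3
open Pool.Agent.Lib.MP_688fd0_co.SQ4
open SQ2.V (Puz)

open Ct in
/-- The puzzle of a path, for the general leaves `Lfg` and any bound `N` for the levels of the joins. -/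
theorem bigG (h1 : Fam1S) (h2 : Fam2S) (hR : RetXS) {Q : Type} [Group Q] [DecidableEq Q] {B : Lb.{0, 0} Q}
    {a b : B.L} {eps : Q →* ℤˣ} {D : Subgroup Q} {z : Q} {k : ℕ} (H : HypC B a b eps D z k) {c W N : ℕ}
    (hS : SinkU H.up D W) (hcN : c ≤ N) (hW : 8 * k + 4 * N + 8 ≤ W) (hE : ∃ s, EffL B a b eps D z k s)
    {x s₁ s₂ : Q} {F : Finset Q} (hx : eps x = 1) (hF : FrC H.up D k c W x F) (hs₁ : s₁ ∈ F) (hs₂ : s₂ ∈ F)
    (n₁ : s₁ ≠ x) (n₂ : s₂ ≠ x) (n₁₂ : s₁ ≠ s₂) (l₁ : Lfg H N x s₁) (l₂ : Lfg H N x s₂) :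
    ∃ T : Pth H F, T.Ok x s₁ s₂ (rT F.card (Nat.card B.L) k) (hB F.card k N) ∧ T.FullM N (hB F.card k N) ∧
      (∀ r, T.Kb r) ∧
      ∀ c', ∃ (s : B.L) (n : ℤ) (v y : {v // v ∈ F}), EffL B a b eps D z k s ∧ |n| ≤ N ∧
        (rfC eps (B.q a) v * sg B a s)⁻¹ * (rfC eps (B.q a) y * wC B a b ^ n) ∈ D ∧
        (∀ u : {v // v ∈ F}, T.Y c' u ↔ (Sh D (v : Q) (u : Q) ∨ Sh D (y : Q) (u : Q))) ∧
        FamX H _ _ (T.X c') s n (MsC B a b D z k s) (fun u => Sh D (v : Q) (u : Q)) (fun u => Sh D (y : Q) (u : Q))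
          (T.wd c') (T.In c') (hB F.card k N) := by
  classical
  have hfL := H.finL
  have := Fintype.ofFinite B.L
  have hg := dcl hF
  have hD := dis H hF
  have hcF : Fintype.card {v // v ∈ F} = F.card := Fintype.card_coe F
  let P : {v // v ∈ F} × {v // v ∈ F} × B.L → Prop := fun j => EffL B a b eps D z k j.2.2 ∧ ∃ n : ℤ, |n| ≤ N ∧
    (rfC eps (B.q a) (j.1 : Q) * sg B a j.2.2)⁻¹ * (rfC eps (B.q a) (j.2.1 : Q) * wC B a b ^ n) ∈ D
  obtain ⟨t₀, ht₀⟩ := hE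
  have hj : ∀ j : {j // P j}, ∃ (n : ℤ) (R : Type) (_ : Fintype R)
      (X : ClsW H.up (fun v : {v // v ∈ F} => (v : Q)) Subtype.val_injective (2 * k) R) (wd : R → List B.L)
      (In : R → Prop), |n| ≤ N ∧
      (rfC eps (B.q a) (j.1.1 : Q) * sg B a j.1.2.2)⁻¹ * (rfC eps (B.q a) (j.1.2.1 : Q) * wC B a b ^ n) ∈ D ∧
      Fintype.card R ≤ rB (Nat.card B.L) k ∧
      FamX H _ _ X j.1.2.2 n (MsC B a b D z k j.1.2.2) (fun u => Sh D (j.1.1 : Q) (u : Q))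
        (fun u => Sh D (j.1.2.1 : Q) (u : Q)) wd In (hB F.card k N) := by
    rintro ⟨⟨v, y, s⟩, hs, n, hn, hjn⟩
    obtain ⟨R, iR, X, wd, In, g3, g4⟩ := exists_fam H h1 h2 Subtype.val_injective hg hD hS hW hs hn hjn
    rw [hcF] at g4
    exact ⟨n, R, iR, X, wd, In, hn, hjn, g3, g4⟩
  choose n R iR X wd In e1 e2 e5 e6 using hj
  -- the shifts
  have hMs : ∀ (t : B.L) (μ : Q) (v y : {v // v ∈ F}) (m : ℤ), |m| ≤ N → μ ∈ mZ B a b D z k →
      (rfC eps (B.q a) (v : Q) * sg B a t)⁻¹ * (rfC eps (B.q a) (y : Q) * wC B a b ^ m) ∈ D →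
      (μ ≠ 1 → ¬ Sh D (v : Q) (y : Q)) → μ ∈ MsC B a b D z k t := by
    intro t μ v y m hm hμ hjn hμ1
    refine ⟨hμ, fun h => ?_⟩
    by_contra hne
    exact hμ1 hne (near_sh H hg hD (by omega) hm hjn h)
  -- rungs over the leaves
  have hr : ∀ s (hs : s ∈ F), s ≠ x → Lfg H N x s → ∃ (j : {j // P j}) (r : R j),
      (((X j).x r : Q) = x ∧ ((X j).y r : Q) = s) ∨ (((X j).x r : Q) = s ∧ ((X j).y r : Q) = x) := by
    intro s hs hne hl
    rcases hl with ⟨q, hq, rfl⟩ | ⟨t, m, i, μ, ht, hm, hμ, hμ1, hl | hl⟩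
    · -- inner leaf
      obtain ⟨y, hy, m, hm, hjm⟩ := exists_join H hx hF ht₀.1
      let j : {j // P j} := ⟨(⟨x, hF.fx⟩, ⟨y, hy⟩, t₀), ht₀, m, hm.trans (by exact_mod_cast hcN), by
        show (rfC eps (B.q a) x * _)⁻¹ * _ ∈ D
        rw [rf_one hx]; exact hjm⟩
      obtain ⟨r, r1, r2, r3⟩ := (e6 j).inn ⟨x, hF.fx⟩ (Or.inl (Sh.refl x)) q hq
      refine ⟨j, r, Or.inl ⟨by rw [r2], ?_⟩⟩
      have r4 := ((e6 j).inner r r1).1
      rw [r2] at r4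
      have r5 : eps ((X j).y r : Q) = 1 := by rw [← eps_sh H r4]; exact hx
      rw [rf_one r5, rf_one hx] at r3
      exact r3
    · -- forward
      have hjm : (rfC eps (B.q a) x * sg B a t)⁻¹ * (rfC eps (B.q a) s * wC B a b ^ m) ∈ D := by
        rw [rf_one hx]; exact join_of H ht.1 hμ hl
      let j : {j // P j} := ⟨(⟨x, hF.fx⟩, ⟨s, hs⟩, t), ht, m, hm, hjm⟩
      have hnm : n j = m := n_unique H hg hD (by omega) (y := j.1.2.1) (v := j.1.1) (e1 j) hm (e2 j) hjm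
      obtain ⟨r, r1, r2⟩ := (e6 j).crs ⟨x, hF.fx⟩ ⟨s, hs⟩ ⟨Sh.refl x, Sh.refl s, i, μ,
        hMs t μ ⟨x, hF.fx⟩ ⟨s, hs⟩ m hm hμ hjm hμ1, by
          show rfC eps (B.q a) s * wC B a b ^ (n j) = rfC eps (B.q a) x * μ * _
          rw [hnm, rf_one hx]; exact hl⟩
      refine ⟨j, r, r2.imp (fun h => ⟨by rw [h.1], by rw [h.2]⟩) fun h => ⟨by rw [h.1], by rw [h.2]⟩⟩
    · -- backward
      have hjm : (rfC eps (B.q a) s * sg B a t)⁻¹ * (rfC eps (B.q a) x * wC B a b ^ m) ∈ D := by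
        rw [rf_one hx]; exact join_of H ht.1 hμ hl
      let j : {j // P j} := ⟨(⟨s, hs⟩, ⟨x, hF.fx⟩, t), ht, m, hm, hjm⟩
      have hnm : n j = m := n_unique H hg hD (by omega) (y := j.1.2.1) (v := j.1.1) (e1 j) hm (e2 j) hjm
      obtain ⟨r, r1, r2⟩ := (e6 j).crs ⟨s, hs⟩ ⟨x, hF.fx⟩ ⟨Sh.refl s, Sh.refl x, i, μ,
        hMs t μ ⟨s, hs⟩ ⟨x, hF.fx⟩ m hm hμ hjm (fun h h' => hμ1 h h'.symm), by
          show rfC eps (B.q a) x * wC B a b ^ (n j) = rfC eps (B.q a) s * μ * _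
          rw [hnm, rf_one hx]; exact hl⟩
      refine ⟨j, r, r2.symm.imp (fun h => ⟨by rw [h.1], by rw [h.2]⟩) fun h => ⟨by rw [h.1], by rw [h.2]⟩⟩
  obtain ⟨jf, f, hf⟩ := hr s₁ hs₁ n₁ l₁
  obtain ⟨jg, g, hg'⟩ := hr s₂ hs₂ n₂ l₂
  let T : Pth H F :=
    { C := {j // P j}
      Rc := R
      fC := inferInstance
      fR := iR
      X := X
      Y := fun j u => Sh D (j.1.1 : Q) (u : Q) ∨ Sh D (j.1.2.1 : Q) (u : Q)
      wd := wd
      In := In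
      f := ⟨jf, f⟩
      g := ⟨jg, g⟩
      l₀ := ⟨x, hF.fx⟩
      Kb := fun _ => True }
  have key : ∀ (j : {j // P j}) (r : R j) (s : Q), s ≠ x →
      ((((X j).x r : Q) = x ∧ ((X j).y r : Q) = s) ∨ (((X j).x r : Q) = s ∧ ((X j).y r : Q) = x)) →
      T.P.On ⟨j, r⟩ ⟨x, hF.fx⟩ ∧ (T.P.oth ⟨j, r⟩ ⟨x, hF.fx⟩ : Q) = s := by
    intro j r s hne h
    have hx' : T.P.x ⟨j, r⟩ = (X j).x r := rfl
    have hy' : T.P.y ⟨j, r⟩ = (X j).y r := rfl
    unfold Puz.On Puz.oth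
    rw [hx', hy']
    rcases h with ⟨h3, h4⟩ | ⟨h3, h4⟩
    · have h5 : (⟨x, hF.fx⟩ : {v // v ∈ F}) = (X j).x r := Subtype.ext h3.symm
      rw [if_pos h5]
      exact ⟨Or.inl h5, h4⟩
    · have h5 : (⟨x, hF.fx⟩ : {v // v ∈ F}) = (X j).y r := Subtype.ext h4.symm
      have h6 : (⟨x, hF.fx⟩ : {v // v ∈ F}) ≠ (X j).x r := by
        intro h7
        apply hne
        rw [← h3, ← h7]
      rw [if_neg h6]
      exact ⟨Or.inr h5, h3⟩
  obtain ⟨kf1, kf2⟩ := key jf f s₁ n₁ hf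
  obtain ⟨kg1, kg2⟩ := key jg g s₂ n₂ hg'
  have hret : T.P.RetK fun _ => True :=
    hR Q B a b eps D z k H F T fun j => ⟨j.1.2.2, n j, _, j.1.1, j.1.2.1, _, e6 j⟩
  refine ⟨T, ?_, ?_, fun _ => trivial, fun j => ⟨j.1.2.2, n j, j.1.1, j.1.2.1, j.2.1, e1 j, e2 j, fun u => Iff.rfl, e6 j⟩⟩
  · exact
      { fam := fun j => (e6 j).toFamB
        card := by
          show Fintype.card (Σ j, R j) ≤ _
          rw [Fintype.card_sigma]
          have h3 : Fintype.card {j // P j} ≤ F.card * F.card * Nat.card B.L := by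
            refine (Fintype.card_subtype_le P).trans ?_
            rw [Fintype.card_prod, Fintype.card_prod, hcF, Nat.card_eq_fintype_card, mul_assoc]
          calc ∑ j, Fintype.card (R j) ≤ ∑ _j : {j // P j}, rB (Nat.card B.L) k := Finset.sum_le_sum fun j _ => e5 j
            _ = Fintype.card {j // P j} * rB (Nat.card B.L) k := by rw [Finset.sum_const, Finset.card_univ, smul_eq_mul]
            _ ≤ (F.card * F.card * Nat.card B.L) * rB (Nat.card B.L) k := Nat.mul_le_mul_right _ h3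
            _ ≤ (2 * (F.card + 1) ^ 2 * (Nat.card B.L + 1)) * rB (Nat.card B.L) k := by
              refine Nat.mul_le_mul_right _ (Nat.mul_le_mul ?_ (by omega))
              nlinarith [Nat.zero_le F.card]
        adj := ⟨kg1, kf1, fun h => n₁₂ (by rw [← kf2, ← kg2]; exact congrArg Subtype.val h.symm)⟩
        hx := rfl
        h₁ := kf2
        h₂ := kg2
        ret := hret
        kg := trivial }
  · intro v y s m hm hs hj
    let j : {j // P j} := ⟨(v, y, s), hs, m, hm, hj⟩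
    have hnm : n j = m := n_unique H hg hD (by omega) (y := y) (v := v) (e1 j) hm (e2 j) hj
    refine ⟨j, ?_⟩
    rw [← hnm]
    exact e6 j

theorem lamC_ge (σ k c : ℕ) : 100 * (c + k + 1) ≤ lamC σ k c := by
  unfold lamC
  have h1 : 2 ^ (k + 20) ≤ 2 ^ ((σ + k + 20) ^ 4) := by
    apply Nat.pow_le_pow_right (by norm_num)
    calc k + 20 ≤ (σ + k + 20) ^ 1 := by rw [pow_one]; omega
      _ ≤ _ := Nat.pow_le_pow_right (by omega) (by norm_num)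
  have h2 : 100 * (k + 1) ≤ 2 ^ (k + 20) := by
    have h3 : k + 1 ≤ 2 ^ k := Nat.lt_two_pow_self
    calc 100 * (k + 1) ≤ 2 ^ 20 * 2 ^ k := Nat.mul_le_mul (by norm_num) h3
      _ = 2 ^ (k + 20) := by rw [pow_add, mul_comm]
  calc 100 * (c + k + 1) ≤ 100 * (k + 1) * (c + 1) := by nlinarith
    _ ≤ _ := Nat.mul_le_mul_right _ (h2.trans h1)

theorem Ed.lfg {Q : Type} [Group Q] {B : Lb.{0, 0} Q} {a b : B.L} {eps : Q →* ℤˣ} {D : Subgroup Q} {z : Q} {k : ℕ}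
    (H : HypC B a b eps D z k) {N : ℕ} {x s : Q} (h : Ed B a b eps D z k N x s) : Lfg H N x s :=
  Edg.lfg (H := H) h

/-- BIGX. -/
theorem bigX (h1 : Fam1S) (h2 : Fam2S) (hR : RetXS) : BigXS := by
  intro Q _ _ B a b eps D z k H c W hS _ _ hW hE x s₁ s₂ F hx hF hs₁ hs₂ n₁ n₂ n₁₂ l₁ l₂
  have h3 := lamC_ge ((Nat.card B.L + 2) ^ 4 * k) k c
  obtain ⟨T, g1, g2, g3, g4⟩ := bigG h1 h2 hR H hS (N := c + 2) (by omega) (by omega) hE hx hF hs₁ hs₂ n₁ n₂ n₁₂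
    (l₁.lfg H) (l₂.lfg H)
  refine ⟨T, g1, ?_, fun c' => ?_⟩
  · exact g2
  · obtain ⟨s, n, v, y, -, -, -, -, h⟩ := g4 c'
    exact ⟨s, n, v, y, h⟩

end Pool.Agent.Lib.MP_688fd0_co.SQ4.CV
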