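import Pool.Agent.Lib.MP_688fd0_co.SQ4.H41.Ctx
import Pool.Agent.Lib.MP_688fd0_co.SQ4.IfaceV2

/-!
Type C1, WORLD, row CTXV.
-/

set_option autoImplicit false

namespace Pool.Agent.Lib.MP_688fd0_co.SQ4.CV

open Pool.Agent.Lib.MP_688fd0_co.OSF Pool.Agent.Lib.MP_688fd0_co.SQ2 Pool.Agent.Lib.MP_688fd0_co.SQ3
open Pool.Agent.Lib.MP_688fd0_co.SQ4
open Pool.Agent.Lib.MP_688fd0_co.SQ4.Small (Ln ln_iff ln_ker ln_symm)

theorem Ed.of_edg {Q : Type} [Group Q] {B : Lb.{0, 0} Q} {a b : B.L} {eps : Q →* ℤˣ} {D : Subgroup Q} {z : Q}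
    {k : ℕ} {H : HypC B a b eps D z k} {N N' : ℕ} {x s : Q} (h : Edg H N x s) (hN : N ≤ N') :
    Ed B a b eps D z k N' x s := by
  rcases h with h | ⟨t, n, i, h1, h2, h3⟩
  · exact Or.inl h
  · exact Or.inr ⟨t, n, i, h1, h2.trans (by exact_mod_cast hN), h3⟩

open Ct in
/-- CTX. -/
theorem ctxV : CtxVS := by
  intro Q _ _ B a b eps D z k H c W h3 _ hP _ hW
  have hfin := H.fin
  have h4 : 4 * c ≤ W := by
    refine le_trans ?_ hW
    unfold lamC
    have h5 : 4 ≤ 2 ^ (((Nat.card B.L + 2) ^ 4 * k + k + 20) ^ 4) := by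
      calc 4 = 2 ^ 2 := by norm_num
        _ ≤ _ := Nat.pow_le_pow_right (by norm_num) ?_
      calc 2 ≤ 20 := by norm_num
        _ ≤ (Nat.card B.L + 2) ^ 4 * k + k + 20 := by omega
        _ = ((Nat.card B.L + 2) ^ 4 * k + k + 20) ^ 1 := (pow_one _).symm
        _ ≤ _ := Nat.pow_le_pow_right (by omega) (by norm_num)
    calc 4 * c ≤ 4 * (c + 1) := by omega
      _ ≤ _ := Nat.mul_le_mul_right _ h5
  obtain ⟨d, cl, N, x, s₁, s₂, F, rk, C⟩ := ctxC Q B a b eps D z k H h3 c W hP h4
  -- `cl` is constant on the lines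
  have hcl : ∀ y y' : Q, lnU H.up y = lnU H.up y' → cl y = cl y' := by
    intro y y' h
    obtain ⟨t, rfl⟩ := (lnU_iff H).1 h
    induction t with
    | zero => rfl
    | succ t ih =>
      rw [H.up.U_pow_succ', C.c_line]
      apply ih
      have h5 := lnU_z H.up y t
      rw [zpow_natCast] at h5
      exact h5.symm
  refine ⟨d, cl, N, x, s₁, s₂, F, rk, ?_⟩
  exact
    { pos := C.pos
      d_line := C.d_line
      c_line := C.c_line
      d₁ := C.d₁
      d₂ := C.d₂
      c₀ := C.cx
      c₁ := fun i => (C.tree.kl i).trans (C.cx i)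
      c₂ := fun i => (C.tree.km i).trans (C.cx i)
      tree := C.tree
      one := C.one
      odd := by
        have h5 := C.odd
        have e : ∀ L : Quotient (Equiv.Perm.SameCycle.setoid H.up.U), (∃ y, cl y = false ∧ lnU H.up y = L) ↔
            (∃ y, lnU H.up y = L ∧ cl y = false) := fun L => exists_congr fun y => and_comm
        rw [Nat.card_congr (Equiv.subtypeEquivRight e)]
        exact h5
      cov := C.cov
      ex := C.ex
      fr := C.fr
      fs0 := C.fs0
      f₁ := C.f₁
      f₂ := C.f₂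
      e₁ := fun i => Ed.of_edg (H := H) (C.e₁ i) (by omega)
      e₂ := fun i => Ed.of_edg (H := H) (C.e₂ i) (by omega)
      near := C.near
      adj := by
        rintro ⟨y₁, hy₁⟩
        by_contra hc
        push Not at hc
        -- all lines have the same class
        have hE : ∀ L L', Eg H L L' → ∀ y y', lnU H.up y = L → lnU H.up y' = L' → cl y = cl y' := by
          have key : ∀ y h, eps y = 1 → h ∈ Gn B a b eps D z k → cl y = false → cl (y * h) = true → False := by
            intro y h hy hh h5 h6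
            refine hc (y * h) y h6 h5 (by rw [map_mul, hy, eps_Gn H hh, one_mul]) hy ?_
            rcases hh with hh | ⟨t, i, ht, hh | hh⟩
            · exact Or.inl ⟨h, hh, rfl⟩
            · exact Or.inr ⟨t, i, ht, Or.inl (by rw [hh])⟩
            · exact Or.inr ⟨t, i, ht, Or.inr (by rw [hh, inv_mul_cancel_right])⟩
          rintro _ _ ⟨u, h, hu, hh, rfl, rfl⟩ y y' hy hy'
          rw [hcl y u hy, hcl y' (u * h) hy']
          rcases h5 : cl u with _ | _ <;> rcases h6 : cl (u * h) with _ | _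
          · rfl
          · exact (key u h hu hh h5 h6).elim
          · exfalso
            refine key (u * h) h⁻¹ (by rw [map_mul, hu, eps_Gn H hh, one_mul]) (Gn_inv hh) h6 ?_
            rw [mul_inv_cancel_right]
            exact h5
          · rfl
        have h5 := Eg_conn H (fun L L' => ∀ y y', lnU H.up y = L → lnU H.up y' = L' → cl y = cl y')
          ⟨fun L y y' h h' => hcl y y' (h.trans h'.symm), fun h y y' h1 h2 => (h y' y h2 h1).symm,
            fun {L M N} h h' y y' h1 h2 => by
              obtain ⟨v, hv⟩ := Quotient.exists_rep M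
              exact (h y v h1 hv).trans (h' v y' hv h2)⟩ hE
        have h6 := h5 _ _ y₁ (x ⟨0, C.pos⟩) rfl rfl
        rw [hy₁, C.cx] at h6
        exact absurd h6 (by decide) }

end Pool.Agent.Lib.MP_688fd0_co.SQ4.CV
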