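import Pool.Agent.Lib.MP_688fd0_co.SQ4.H41.Ctx
import Pool.Agent.Lib.MP_688fd0_co.SQ4.IfaceV2

/-!
Type C1: the families of a path (`Fam1S`, `Fam2S` together), their rungs over the edges `Edg`.
-/

set_option autoImplicit false

namespace Pool.Agent.Lib.MP_688fd0_co.SQ4.CV

open Pool.Agent.Lib.MP_688fd0_co.OSF Pool.Agent.Lib.MP_688fd0_co.SQ2 Pool.Agent.Lib.MP_688fd0_co.SQ3
open Pool.Agent.Lib.MP_688fd0_co.SQ4
open SQ2.V (Puz)
open Pool.Agent.Lib.MP_688fd0_co.SQ4.Small (Ln ln_iff ln_ker ln_symm Up_sheet Uz_sheet U_lmz eps_Up)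

namespace Ct

section

variable {S Q : Type} [Group Q] {B : Lb.{0, 0} Q} {a b : B.L} {eps : Q →* ℤˣ} {D : Subgroup Q} {z : Q} {k : ℕ}
  (H : HypC B a b eps D z k) {g : S → Q}

include H

omit H in
theorem rf_one {x : Q} (h : eps x = 1) : rfC eps (B.q a) x = x := if_pos h

omit H in
theorem rf_neg {x : Q} (h : eps x ≠ 1) : rfC eps (B.q a) x = x * (B.q a)⁻¹ := if_neg h

theorem eps_sh {x y : Q} (h : Sh D x y) : eps x = eps y := by
  have h1 : eps (x⁻¹ * y) = 1 := H.leD h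
  rw [map_mul, map_inv] at h1
  exact inv_mul_eq_one.1 h1

/-- The reference vertices of a sheet. -/
theorem rf_sh {x y : Q} (h : Sh D x y) : Sh D (rfC eps (B.q a) x) (rfC eps (B.q a) y) := by
  have he := eps_sh H h
  by_cases h1 : eps x = 1
  · rw [rf_one h1, rf_one (he ▸ h1)]
    exact h
  · rw [rf_neg h1, rf_neg (he ▸ h1)]
    exact h.mul_right H.nD _

theorem sh_rf {x y : Q} (he : eps x = eps y) (h : Sh D (rfC eps (B.q a) x) (rfC eps (B.q a) y)) : Sh D x y := by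
  by_cases h1 : eps x = 1
  · rwa [rf_one h1, rf_one (he ▸ h1)] at h
  · rw [rf_neg h1, rf_neg (he ▸ h1)] at h
    exact (Sh.mul_right_iff H.nD _).1 h

/-- No power of `w` (of small exponent) is in `D`. -/
theorem w_notD (hg : DCl D g) {W : ℕ} (hD : Dis H g W) (s₀ : S) {m : ℤ} (hm : 2 * |m| ≤ W)
    (h : wC B a b ^ m ∈ D) : m = 0 := by
  obtain ⟨x, hx⟩ : ∃ x, x = g s₀ := ⟨_, rfl⟩
  have h1 : Sh D x ((H.up.U ^ (2 * m)) x) := by
    rcases Int.units_eq_one_or (eps x) with he | he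
    · rw [U_even H he]
      show x⁻¹ * (x * wC B a b ^ m) ∈ D
      rwa [inv_mul_cancel_left]
    · -- `x = U y`
      have he' : eps (x * (B.q a)⁻¹) = 1 := by rw [map_mul, map_inv, he, H.ea]; decide
      have e0 : H.up.U (x * (B.q a)⁻¹) = x := by rw [H31.C_U_one H he', inv_mul_cancel_right]
      have e1 : (H.up.U ^ (2 * m)) x = x * (B.q a)⁻¹ * wC B a b ^ m * B.q a := by
        have e2 : (H.up.U ^ (2 * m)) (H.up.U (x * (B.q a)⁻¹)) = H.up.U ((H.up.U ^ (2 * m)) (x * (B.q a)⁻¹)) := by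
          rw [← Equiv.Perm.mul_apply, ← Equiv.Perm.mul_apply, ← zpow_add_one, ← zpow_one_add, add_comm]
        rw [e0] at e2
        rw [e2, U_even H he', H31.C_U_one H (by rw [map_mul, he', map_zpow, eps_w H, one_zpow, one_mul])]
      rw [e1]
      show x⁻¹ * (x * (B.q a)⁻¹ * wC B a b ^ m * B.q a) ∈ D
      have h2 := H.nD.conj_mem _ h (B.q a)⁻¹
      have e3 : (B.q a)⁻¹ * wC B a b ^ m * (B.q a)⁻¹⁻¹ = x⁻¹ * (x * (B.q a)⁻¹ * wC B a b ^ m * B.q a) := by group
      rwa [e3] at h2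
  obtain ⟨δ, hδ, h2⟩ := h1.exists_mul
  obtain ⟨s₁, hs₁⟩ := hg s₀ δ hδ
  have h3 := hD s₀ s₁ (2 * m) (by rw [abs_mul]; norm_num; exact hm) (by rw [← hx, h2, hs₁, ← hx])
  omega

/-- The level of a join is unique. -/
theorem n_unique (hg : DCl D g) {W N : ℕ} (hD : Dis H g W) (hW : 4 * N ≤ W) {v y : S} {u : Q} {n n' : ℤ}
    (hn : |n| ≤ N) (hn' : |n'| ≤ N)
    (h : u⁻¹ * (rfC eps (B.q a) (g y) * wC B a b ^ n) ∈ D)
    (h' : u⁻¹ * (rfC eps (B.q a) (g y) * wC B a b ^ n') ∈ D) : n = n' := by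
  have h1 := D.mul_mem (D.inv_mem h) h'
  have e : (u⁻¹ * (rfC eps (B.q a) (g y) * wC B a b ^ n))⁻¹ * (u⁻¹ * (rfC eps (B.q a) (g y) * wC B a b ^ n')) =
      wC B a b ^ (n' - n) := by
    rw [zpow_sub]
    have hc : Commute (wC B a b ^ n') (wC B a b ^ n)⁻¹ :=
      ((Commute.refl (wC B a b)).zpow_zpow n' n).inv_right
    rw [hc.eq]
    group
  rw [e] at h1
  have h2 : |n' - n| ≤ |n'| + |n| := abs_sub _ _
  have h3 := w_notD H hg hD v (m := n' - n) (by omega) h1
  omega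

/-- A join inside a sheet. -/
theorem near_join {W N : ℕ} (hS : SinkU H.up D W) (hW : 2 * N + 1 ≤ W) {s : B.L} {n : ℤ} (hn : |n| ≤ N)
    {v y : Q} (h1 : Sh D v y)
    (h : (rfC eps (B.q a) v * sg B a s)⁻¹ * (rfC eps (B.q a) y * wC B a b ^ n) ∈ D) :
    (n = 0 ∨ n = -1) ∧ sg B a s * (wC B a b ^ n)⁻¹ ∈ D := by
  have hv := eps_rf H v
  obtain ⟨u, hu⟩ : ∃ u, u = rfC eps (B.q a) v := ⟨_, rfl⟩
  rw [← hu] at hv h
  have h2 := rf_sh H h1
  rw [← hu] at h2
  -- `u σ ~ u w ^ n`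
  have h3 : Sh D (u * sg B a s) (u * wC B a b ^ n) :=
    Sh.trans (show Sh D (u * sg B a s) (rfC eps (B.q a) y * wC B a b ^ n) from h) (h2.symm.mul_right H.nD _)
  have h4 : Sh D (sg B a s) (wC B a b ^ n) := (Sh.mul_left_iff u).1 h3
  refine ⟨?_, ?_⟩
  · by_contra hc
    push Not at hc
    -- `u s` is in the sheet of `U ^ (2 n + 1) u`
    have h5 : Sh D (u * B.q s) ((H.up.U ^ (2 * n + 1)) u) := by
      have h6 := h3.mul_right H.nD (B.q a)
      have e1 : u * sg B a s * B.q a = u * B.q s := by unfold sg; group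
      have e2 : (H.up.U ^ (2 * n + 1)) u = u * wC B a b ^ n * B.q a := by
        rw [add_comm, zpow_add, Equiv.Perm.mul_apply, U_even H hv, zpow_one, H31.C_U_one H (by
          rw [map_mul, hv, map_zpow, eps_w H, one_zpow, one_mul])]
      rwa [e1, ← e2] at h6
    refine hS u s (2 * n + 1) ?_ ?_ h5.symm
    · rcases abs_cases (2 * n + 1) with h' | h' <;> omega
    · rcases abs_cases (2 * n + 1) with h' | h' <;> rcases abs_cases n with h'' | h'' <;> omega
  · have h5 := D.inv_mem h4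
    have h6 := H.nD.conj_mem _ h5 (wC B a b ^ n)
    have e : wC B a b ^ n * ((sg B a s)⁻¹ * wC B a b ^ n)⁻¹ * (wC B a b ^ n)⁻¹ = sg B a s * (wC B a b ^ n)⁻¹ := by
      group
    rwa [e] at h6

theorem memA {g : B.L} (h : B.q g * (B.q a)⁻¹ ∈ D) : (B.q a)⁻¹ * B.q g ∈ D := by
  have h1 := H.nD.conj_mem _ h (B.q a)⁻¹
  have e : (B.q a)⁻¹ * (B.q g * (B.q a)⁻¹) * (B.q a)⁻¹⁻¹ = (B.q a)⁻¹ * B.q g := by group
  rwa [e] at h1

theorem memB {g : B.L} (h : B.q g * (B.q b)⁻¹ ∈ D) : (B.q b)⁻¹ * B.q g ∈ D := by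
  have h1 := H.nD.conj_mem _ h (B.q b)⁻¹
  have e : (B.q b)⁻¹ * (B.q g * (B.q b)⁻¹) * (B.q b)⁻¹⁻¹ = (B.q b)⁻¹ * B.q g := by group
  rwa [e] at h1

/-- A near reflection joins a sheet of the frontier to itself only. -/
theorem near_sh (hg : DCl D g) {W N : ℕ} (hD : Dis H g W) (hW : 4 * N + 8 ≤ W) {s : B.L}
    {v y : S} {n : ℤ} (hn : |n| ≤ N)
    (h : (rfC eps (B.q a) (g v) * sg B a s)⁻¹ * (rfC eps (B.q a) (g y) * wC B a b ^ n) ∈ D)
    (hs : (B.q a)⁻¹ * B.q s ∈ D ∨ (B.q b)⁻¹ * B.q s ∈ D) : Sh D (g v) (g y) := by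
  -- the level of `s`
  obtain ⟨n₀, hn₀, hσ⟩ : ∃ n₀ : ℤ, |n₀| ≤ 1 ∧ Sh D (sg B a s) (wC B a b ^ n₀) := by
    rcases hs with hs | hs
    · refine ⟨0, by norm_num, ?_⟩
      rw [zpow_zero]
      have h1 := H.nD.conj_mem _ hs (B.q a)
      have e : B.q a * ((B.q a)⁻¹ * B.q s) * (B.q a)⁻¹ = sg B a s := by unfold sg; group
      rw [e] at h1
      show (sg B a s)⁻¹ * 1 ∈ D
      rw [mul_one]
      exact D.inv_mem h1
    · refine ⟨-1, by norm_num, ?_⟩
      show (sg B a s)⁻¹ * wC B a b ^ (-1 : ℤ) ∈ D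
      have h3 : (sg B a s)⁻¹ * wC B a b ^ (-1 : ℤ) = B.q a * ((B.q s)⁻¹ * B.q b) * (B.q a)⁻¹ := by
        unfold sg wC; group
      rw [h3]
      refine H.nD.conj_mem _ ?_ _
      have h4 := D.inv_mem hs
      rwa [mul_inv_rev, inv_inv] at h4
  obtain ⟨u, hu⟩ : ∃ u, u = rfC eps (B.q a) (g v) := ⟨_, rfl⟩
  obtain ⟨u', hu'⟩ : ∃ u', u' = rfC eps (B.q a) (g y) := ⟨_, rfl⟩
  have hue : eps u = 1 := by rw [hu]; exact eps_rf H _
  have hue' : eps u' = 1 := by rw [hu']; exact eps_rf H _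
  rw [← hu, ← hu'] at h
  have h1 : Sh D (u' * wC B a b ^ n) (u * wC B a b ^ n₀) :=
    Sh.trans (show Sh D (u' * wC B a b ^ n) (u * sg B a s) from Sh.symm h) (hσ.mul_left u)
  have h2 : Sh D u' ((H.up.U ^ (2 * (n₀ - n))) u) := by
    have h3 := h1.mul_right H.nD (wC B a b ^ (-n))
    have e1 : u' * wC B a b ^ n * wC B a b ^ (-n) = u' := by group
    have e2 : u * wC B a b ^ n₀ * wC B a b ^ (-n) = (H.up.U ^ (2 * (n₀ - n))) u := by
      rw [U_even H hue, mul_assoc, ← zpow_add]; rfl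
    rwa [e1, e2] at h3
  -- the strands
  have hv : ∃ i : ℤ, |i| ≤ 1 ∧ g v = (H.up.U ^ i) u := by
    by_cases he : eps (g v) = 1
    · exact ⟨0, by norm_num, by rw [hu, rf_one he]; rfl⟩
    · refine ⟨1, by norm_num, ?_⟩
      rw [zpow_one, H31.C_U_one H hue, hu, rf_neg he, inv_mul_cancel_right]
  have hy : ∃ i : ℤ, |i| ≤ 1 ∧ g y = (H.up.U ^ i) u' := by
    by_cases he : eps (g y) = 1
    · exact ⟨0, by norm_num, by rw [hu', rf_one he]; rfl⟩
    · refine ⟨1, by norm_num, ?_⟩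
      rw [zpow_one, H31.C_U_one H hue', hu', rf_neg he, inv_mul_cancel_right]
  obtain ⟨i, hi, hv⟩ := hv
  obtain ⟨j, hj, hy⟩ := hy
  have h4 : Sh D (g y) ((H.up.U ^ (j + 2 * (n₀ - n) - i)) (g v)) := by
    have h5 : Sh D ((H.up.U ^ j) u') ((H.up.U ^ j) ((H.up.U ^ (2 * (n₀ - n))) u)) := (Uz_sheet H j).2 h2
    rw [← hy, ← Equiv.Perm.mul_apply, ← zpow_add] at h5
    have e : (H.up.U ^ (j + 2 * (n₀ - n) - i)) (g v) = (H.up.U ^ (j + 2 * (n₀ - n))) u := by
      rw [hv, ← Equiv.Perm.mul_apply, ← zpow_add, sub_add_cancel]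
    rwa [e]
  obtain ⟨δ, hδ, h5⟩ := h4.exists_mul
  obtain ⟨s', hs'⟩ := hg y δ hδ
  have hb : |j + 2 * (n₀ - n) - i| ≤ W := by
    rw [abs_le] at hi hj hn₀ hn ⊢
    constructor <;> omega
  have h6 := hD v s' (j + 2 * (n₀ - n) - i) hb (by rw [h5, hs'])
  rw [h6, zpow_zero] at h4
  exact h4.symm

end

section

variable {S Q : Type} [Fintype S] [DecidableEq S] [Group Q] [DecidableEq Q] {B : Lb.{0, 0} Q} {a b : B.L}
  {eps : Q →* ℤˣ} {D : Subgroup Q} {z : Q} {k : ℕ} (H : HypC B a b eps D z k) {g : S → Q}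

/-- The family of a join. -/
theorem exists_fam (h1 : Fam1S) (h2 : Fam2S) (inj : Function.Injective g) (hg : DCl D g) {W N : ℕ}
    (hD : Dis H g W) (hS : SinkU H.up D W) (hW : 8 * k + 4 * N + 8 ≤ W) {s : B.L} (hs : EffL B a b eps D z k s)
    {v y : S} {n : ℤ} (hn : |n| ≤ N)
    (h : (rfC eps (B.q a) (g v) * sg B a s)⁻¹ * (rfC eps (B.q a) (g y) * wC B a b ^ n) ∈ D) :
    ∃ (R : Type) (_ : Fintype R) (X : ClsW H.up g inj (2 * k) R) (wd : R → List B.L) (In : R → Prop),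
      Fintype.card R ≤ rB (Nat.card B.L) k ∧
      FamX H g inj X s n (MsC B a b D z k s) (fun u => Sh D (g v) (g u)) (fun u => Sh D (g y) (g u)) wd In
        (hB (Fintype.card S) k N) := by
  by_cases hsh : Sh D (g v) (g y)
  · obtain ⟨e1, e2⟩ := near_join H hS (by omega) hn hsh h
    have e3 : sg B a s * (wC B a b ^ n)⁻¹ ∉ EI B a b eps D z k := by
      rcases e1 with rfl | rfl
      · rw [zpow_zero, inv_one, mul_one]
        exact hs.2.1
      · have e4 : sg B a s * (wC B a b ^ (-1 : ℤ))⁻¹ = B.q s * (B.q b)⁻¹ := by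
          unfold sg wC
          group
        rw [e4]
        exact hs.2.2
    obtain ⟨R, iR, X, wd, In, h5, h6⟩ := h2 S Q B a b eps D z k H g inj W N hg hD hW s n v e1 hs.1 e2 e3
    have e5 : (fun u => Sh D (g y) (g u)) = fun u => Sh D (g v) (g u) := by
      funext u
      exact propext ⟨fun h => hsh.trans h, fun h => hsh.symm.trans h⟩
    have e6 : MsC B a b D z k s = {1} := by
      ext m
      constructor
      · rintro ⟨-, h7⟩
        apply h7
        rcases e1 with rfl | rfl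
        · left
          rw [zpow_zero, inv_one, mul_one] at e2
          exact memA H e2
        · right
          have e4 : sg B a s * (wC B a b ^ (-1 : ℤ))⁻¹ = B.q s * (B.q b)⁻¹ := by
            unfold sg wC
            group
          rw [e4] at e2
          exact memB H e2
      · intro h7
        have h8 : m = 1 := h7
        rw [h8]
        exact ⟨Subgroup.one_mem _, fun _ => rfl⟩
    refine ⟨R, iR, X, wd, In, h5, ?_⟩
    rw [e5, e6]
    exact h6
  · obtain ⟨R, iR, X, wd, In, h5, h6⟩ := h1 S Q B a b eps D z k H g inj W N hg hD hW s n v y hn hs.1 hsh h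
    have e6 : MsC B a b D z k s = (mZ B a b D z k : Set Q) := by
      ext m
      constructor
      · rintro ⟨h7, -⟩
        exact h7
      · intro h7
        exact ⟨h7, fun h8 => absurd (near_sh H hg hD (by omega) hn h h8) hsh⟩
    refine ⟨R, iR, X, wd, In, h5, ?_⟩
    rw [e6]
    exact h6

end

end Ct

section

variable {Q : Type} [Group Q] {B : Lb.{0, 0} Q} {a b : B.L} {eps : Q →* ℤˣ} {D : Subgroup Q} {z : Q} {k : ℕ}

/-- The leaves of a path (`Edg` and the leaves `Lf` of the rows NRIGC). -/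
def Lfg (_H : HypC B a b eps D z k) (N : ℕ) (x s : Q) : Prop :=
  (∃ q ∈ SI B a b eps D z k, s = x * q) ∨
    ∃ (t : B.L) (n i : ℤ) (m : Q), EffL B a b eps D z k t ∧ |n| ≤ N ∧ m ∈ mZ B a b D z k ∧
      (m ≠ 1 → ¬ Sh D x s) ∧
      (rfC eps (B.q a) s * wC B a b ^ n = x * m * (wC B a b ^ i * sg B a t * wC B a b ^ (-i)) ∨
        x * wC B a b ^ n = rfC eps (B.q a) s * m * (wC B a b ^ i * sg B a t * wC B a b ^ (-i)))

theorem Edg.lfg {H : HypC B a b eps D z k} {N : ℕ} {x s : Q} (h : Edg H N x s) : Lfg H N x s := by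
  rcases h with h | ⟨t, n, i, h1, h2, h3⟩
  · exact Or.inl h
  · refine Or.inr ⟨t, n, i, 1, h1, h2, Subgroup.one_mem _, fun h => absurd rfl h, ?_⟩
    rwa [mul_one, mul_one]

theorem Edg.mono {H : HypC B a b eps D z k} {N N' : ℕ} {x s : Q} (h : Edg H N x s) (hN : N ≤ N') : Edg H N' x s := by
  rcases h with h | ⟨t, n, i, h1, h2, h3⟩
  · exact Or.inl h
  · exact Or.inr ⟨t, n, i, h1, h2.trans (by exact_mod_cast hN), h3⟩

namespace Ct

section

variable (H : HypC B a b eps D z k)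

include H

/-- The join behind a cross leaf. -/
theorem join_of {x s m : Q} {t : B.L} {n i : ℤ} (ht : eps (B.q t) = -1) (hm : m ∈ mZ B a b D z k)
    (h : s * wC B a b ^ n = x * m * (wC B a b ^ i * sg B a t * wC B a b ^ (-i))) :
    (x * sg B a t)⁻¹ * (s * wC B a b ^ n) ∈ D := by
  rw [h]
  have h1 := comm_mem H (eps_sg H ht) i
  have h2 := H.nD.conj_mem _ (mZ_le H hm) (sg B a t)⁻¹
  have h3 := D.mul_mem h2 h1
  have e : (sg B a t)⁻¹ * m * (sg B a t)⁻¹⁻¹ * ((sg B a t)⁻¹ * (wC B a b ^ i * sg B a t * wC B a b ^ (-i))) =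
    (x * sg B a t)⁻¹ * (x * m * (wC B a b ^ i * sg B a t * wC B a b ^ (-i))) := by group
  rwa [e] at h3

end

theorem EI_le (H : HypC B a b eps D z k) : EI B a b eps D z k ≤ D := by
  unfold EI
  rw [Subgroup.closure_le]
  exact fun q hq => SI_mem H hq

theorem EI_le_normal : EI B a b eps D z k ≤ Subgroup.normalClosure {y | ∃ t : B.L, eps (B.q t) = 1 ∧ y = B.q t} := by
  unfold EI
  rw [Subgroup.closure_le]
  rintro _ ⟨m, -, n, t, ht, rfl⟩
  refine Subgroup.normalClosure_normal.conj_mem _ (Subgroup.subset_normalClosure ?_) _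
  exact ⟨t, ht, rfl⟩

end Ct

open Ct in
/-- The leaves of the rows NRIGC are leaves. -/
theorem lfg_of_lf (H : HypC B a b eps D z k) {c W N : ℕ} {x s : Q} {F : Finset Q} (hS : SinkU H.up D W)
    (hx : eps x = 1) (hF : FrC H.up D k c W x F) (hs : s ∈ F) (hN : c + 1 ≤ N) (hW : 2 * N + 1 ≤ W)
    (h : Small.Lf B a b eps D z k c H.up x s) : Lfg H N x s := by
  have hDF : ∀ δ ∈ D, x * δ ∈ F := fun δ hδ => hF.inv x hF.fx δ hδ
  rcases h with ⟨i, t, hi, ht, h⟩ | ⟨g, o, hn, hg, ho, h, hcl⟩ | ⟨g, μ, o, hg, hμ, ho, h⟩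
  · left
    have hes : eps s = 1 := by
      have h1 := congrArg eps h
      rw [map_mul, ht, mul_one, eps_Up H, eps_Up H] at h1
      rw [← mul_left_cancel h1]
      exact hx
    rw [C_U_uC H hx, C_U_uC H hes] at h
    refine ⟨_, ⟨1, Subgroup.one_mem _, i, t, ht, rfl⟩, ?_⟩
    rw [one_mul, ← mul_assoc, ← mul_assoc, h, mul_inv_cancel_right]
  · right
    rcases ho with rfl | rfl
    · -- `s = x σ`
      rw [zpow_one] at h
      have hes : eps s = 1 := by
        have h1 := congrArg eps h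
        rw [map_mul, hx, hg, Small.eps_U H, one_mul] at h1
        exact (neg_inj.1 h1).symm
      rw [H31.C_U_one H hes] at h
      have e1 : s = x * sg B a g := by
        unfold sg
        rw [← mul_assoc, h, mul_inv_cancel_right]
      have e2 : x⁻¹ * s = B.q g * (B.q a)⁻¹ := by rw [e1, inv_mul_cancel_left]; rfl
      refine ⟨g, 0, 0, 1, ⟨hg, ?_, ?_⟩, by simp, Subgroup.one_mem _, fun h => absurd rfl h, Or.inl ?_⟩
      · intro h2
        rw [← e2] at h2
        exact hcl (EI_le_normal h2)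
      · intro h2
        have h3 := hDF _ (EI_le H h2)
        have h4 : (H.up.U ^ (2 : ℤ)) s = x * (B.q g * (B.q b)⁻¹) := by
          rw [show (2 : ℤ) = 2 * 1 by norm_num, U_even H hes, zpow_one, e1]
          unfold sg wC
          group
        rw [← h4] at h3
        exact absurd (hF.disj s hs 2 (by norm_num; omega) h3) (by norm_num)
      · rw [rf_one hes, zpow_zero, neg_zero, zpow_zero, mul_one, mul_one, mul_one, one_mul, e1]
    · -- `s = x σ w`
      have hxg : eps (x * B.q g) ≠ 1 := by rw [map_mul, hx, hg]; decide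
      have e0 : s = H.up.U (x * B.q g) := by
        rw [h, zpow_neg, zpow_one]
        exact (H.up.U.apply_symm_apply s).symm
      rw [H31.C_U_neg H hxg] at e0
      have hes : eps s = 1 := by
        rw [e0, map_mul, map_mul, map_inv, hx, hg, H.eb]; decide
      have e2 : x⁻¹ * s = B.q g * (B.q b)⁻¹ := by rw [e0]; group
      refine ⟨g, -1, 0, 1, ⟨hg, ?_, ?_⟩, by simp; omega, Subgroup.one_mem _, fun h => absurd rfl h, Or.inl ?_⟩
      · intro h2
        have h3 := hDF _ (EI_le H h2)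
        have h4 : (H.up.U ^ (2 : ℤ)) (x * (B.q g * (B.q a)⁻¹)) = s := by
          rw [show (2 : ℤ) = 2 * 1 by norm_num, U_even H (by
            rw [map_mul, map_mul, map_inv, hx, hg, H.ea]; decide), zpow_one, e0]
          unfold wC
          group
        rw [← h4] at hs
        exact absurd (hF.disj _ h3 2 (by norm_num; omega) hs) (by norm_num)
      · intro h2
        rw [← e2] at h2
        exact hcl (EI_le_normal h2)
      · rw [rf_one hes, e0]
        unfold wC sg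
        group
  · right
    obtain ⟨hg1, hg2, hg3⟩ := hg
    have hμ' : μ ∈ mZ B a b D z k := hμ
    have hμe : eps μ = 1 := H.leD (mZ_le H hμ')
    have hy : eps (x * μ * sg B a g) = 1 := by rw [map_mul, map_mul, hx, hμe, eps_sg H hg1]; rfl
    have e1 : H.up.U (x * μ * sg B a g) = (H.up.U ^ o) s := by
      rw [← h, H31.C_U_one H hy]
      unfold sg
      group
    have e2 : s = (H.up.U ^ (1 - o)) (x * μ * sg B a g) := by
      have h3 : (H.up.U ^ (1 - o)) (x * μ * sg B a g) = (H.up.U ^ (-o)) (H.up.U (x * μ * sg B a g)) := by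
        rw [sub_eq_add_neg, add_comm, zpow_add, zpow_one]; rfl
      rw [h3, e1, zpow_neg]
      exact ((H.up.U ^ o).symm_apply_apply s).symm
    obtain ⟨m, hm, hrf⟩ := rf_U H hy (1 - o)
    rw [← e2] at hrf
    have hmN : |m| ≤ N := by
      rcases abs_cases (1 - o) with h' | h' <;> rcases abs_cases o with h'' | h'' <;> omega
    have hc : rfC eps (B.q a) s * wC B a b ^ (-m) = x * μ * (wC B a b ^ (0 : ℤ) * sg B a g * wC B a b ^ (-(0 : ℤ))) := by
      rw [hrf, zpow_neg, mul_inv_cancel_right, neg_zero, zpow_zero, one_mul, mul_one]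
    refine ⟨g, -m, 0, μ, ⟨hg1, fun h2 => hg2 (memA H (EI_le H h2)), fun h2 => hg3 (memB H (EI_le H h2))⟩,
      by rw [abs_neg]; exact hmN, hμ', ?_, Or.inl hc⟩
    intro _ hsh
    have hes : eps s = 1 := by rw [← eps_sh H hsh]; exact hx
    have h5 := join_of H hg1 hμ' hc
    obtain ⟨h6, h7⟩ := near_join H hS hW (s := g) (n := -m) (v := x) (y := s) (by rw [abs_neg]; exact hmN) hsh (by
      rw [rf_one hx]; exact h5)
    rcases h6 with h6 | h6
    · rw [h6, zpow_zero, inv_one, mul_one] at h7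
      exact hg2 (memA H h7)
    · rw [h6] at h7
      have e4 : sg B a g * (wC B a b ^ (-1 : ℤ))⁻¹ = B.q g * (B.q b)⁻¹ := by
        unfold sg wC
        group
      rw [e4] at h7
      exact hg3 (memB H h7)

end

namespace Ct

section

variable {Q : Type} [Group Q] {B : Lb.{0, 0} Q} {a b : B.L} {eps : Q →* ℤˣ} {D : Subgroup Q} {z : Q} {k : ℕ}
  (H : HypC B a b eps D z k)

theorem dcl {U : Up B} {c W : ℕ} {x : Q} {F : Finset Q} (h : FrC U D k c W x F) :
    DCl D (fun v : {v // v ∈ F} => (v : Q)) := fun s δ hδ => ⟨⟨_, h.inv s s.2 δ hδ⟩, rfl⟩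

include H

theorem dis {c W : ℕ} {x : Q} {F : Finset Q} (h : FrC H.up D k c W x F) :
    Dis H (fun v : {v // v ∈ F} => (v : Q)) W := fun v v' t ht e => h.disj v v.2 t ht (by rw [e]; exact v'.2)

/-- An effective reflection joins the sheet of `x` to a sheet of the frontier. -/
theorem exists_join {c W : ℕ} {x : Q} {F : Finset Q} (hx : eps x = 1) (hF : FrC H.up D k c W x F) {t : B.L}
    (ht : eps (B.q t) = -1) : ∃ y ∈ F, ∃ n : ℤ, |n| ≤ c ∧
      (x * sg B a t)⁻¹ * (rfC eps (B.q a) y * wC B a b ^ n) ∈ D := by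
  have hs := eps_sg H ht
  have hxs : eps (x * sg B a t) = 1 := by rw [map_mul, hx, hs, one_mul]
  obtain ⟨o, ho, hoF⟩ := shF H hF (l := [t, B.inv a]) (by simp) (y := x * sg B a t) (by
    have e : B.fin x [t, B.inv a] = x * sg B a t := by
      show x * B.q t * B.q (B.inv a) = _
      rw [B.q_inv, mul_assoc]
      rfl
    rw [e, inv_mul_cancel]
    exact D.one_mem)
  obtain ⟨m, hm, hrf⟩ := rf_U H hxs o
  refine ⟨_, hoF, -m, by rw [abs_neg]; exact hm.trans ho, ?_⟩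
  rw [hrf, zpow_neg, mul_inv_cancel_right, inv_mul_cancel]
  exact D.one_mem

end

end Ct

end Pool.Agent.Lib.MP_688fd0_co.SQ4.CV
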